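import Pool.Agent.N798.S.CE
import Pool.Agent.N798.T.As2

set_option autoImplicit false
set_option maxHeartbeats 1000000

/-! Project S: asymptotics for almost every point of the cube. -/

namespace Pool.Agent.N798.S

open Finset MeasureTheory Filter Topology
open scoped ENNReal
open Pool.Agent.H376R2.MR (er)
open Pool.Agent.N798.T

/-- the indicator of the primes -/
noncomputable def ap (_ : ℕ) (n : ℕ) : ℂ := if n.Prime then 1 else 0

theorem wtp (v : ℕ) : Wt (ap v) ((fun _ : ℕ => 1) v) :=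
  Pool.Agent.N31.T.wp Pool.Agent.Y957.VK.lam_all Pool.Agent.N765.T.wo

/-- the real version of the product -/
noncomputable def xs (b : ℕ → ℤ) (L : ℕ → ℕ → ℝ) (α : ℕ → ℝ) (j n : ℕ) : ℝ :=
  ∏ v ∈ range j, if (nv b L α n v).Prime then (1:ℝ) else 0

variable {b : ℕ → ℤ} {L : ℕ → ℕ → ℝ} {s : ℕ → ℝ} {k j : ℕ}

lemma xs_nonneg (b : ℕ → ℤ) (L : ℕ → ℕ → ℝ) (α : ℕ → ℝ) (j n : ℕ) : 0 ≤ xs b L α j n :=
  Finset.prod_nonneg fun v _ => by split_ifs <;> norm_num

lemma xs_le (b : ℕ → ℤ) (L : ℕ → ℕ → ℝ) (α : ℕ → ℝ) (j n : ℕ) : xs b L α j n ≤ 1 :=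
  Finset.prod_le_one (fun v _ => by split_ifs <;> norm_num) fun v _ => by split_ifs <;> norm_num

lemma xs_cast (b : ℕ → ℤ) (L : ℕ → ℕ → ℝ) (α : ℕ → ℝ) (j n : ℕ) :
    ((xs b L α j n : ℝ) : ℂ) = ∏ v ∈ range j, ap v (nv b L α n v) := by
  unfold xs ap
  push_cast
  refine Finset.prod_congr rfl fun v _ => ?_
  split_ifs <;> simp

lemma xs_congr (b : ℕ → ℤ) (L : ℕ → ℕ → ℝ) (α α' : ℕ → ℝ) (j n : ℕ) (h : ∀ v < j, α v = α' v) :
    xs b L α j n = xs b L α' j n := by
  unfold xs
  refine Finset.prod_congr rfl fun v hv => ?_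
  rw [nv_congr _ _ n v (h v (Finset.mem_range.mp hv))]

lemma xs_succ (b : ℕ → ℤ) (L : ℕ → ℕ → ℝ) (α : ℕ → ℝ) (j n : ℕ) :
    xs b L α (j + 1) n = xs b L α j n * (if (nv b L α n j).Prime then (1:ℝ) else 0) := by
  unfold xs
  rw [Finset.prod_range_succ]

lemma logx2 (d : ℕ → ℝ) (hsz : ∃ (B : ℝ) (n0 : ℕ), 1 ≤ n0 ∧ ∀ n : ℕ, n0 ≤ n → |L j n - d j * Real.log n| ≤ B) :
    ∃ (B : ℝ) (n1 : ℕ), 1 ≤ n1 ∧ ∀ ω : Fin (j + 1) → ℝ, ∀ n : ℕ, n1 ≤ n →
      |Real.log (al s (j + 1) ω j * Real.exp (L j n)) - d j * Real.log n| ≤ B := by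
  obtain ⟨B, n0, hn0, hB⟩ := hsz
  refine ⟨|s j| + 1 + B, n0, hn0, fun ω n hn => ?_⟩
  unfold al
  rw [dif_pos (by omega : j < j + 1), ← Real.exp_add, Real.log_exp]
  have h2 := neg_abs_le (s j)
  have h3 := le_abs_self (s j)
  have h4 : (0:ℝ) ≤ max 0 (min 1 (ω ⟨j, by omega⟩)) := le_max_left _ _
  have h5 : max (0:ℝ) (min 1 (ω ⟨j, by omega⟩)) ≤ 1 := max_le zero_le_one (min_le_left _ _)
  obtain ⟨h6, h7⟩ := abs_le.mp (hB n hn)
  rw [abs_le]
  constructor <;> linarith

/-- the reciprocal of the logarithm of the argument of the last map -/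
noncomputable def ys (L : ℕ → ℕ → ℝ) (s : ℕ → ℝ) (j : ℕ) (ω : Fin (j + 1) → ℝ) (n : ℕ) : ℝ :=
  1 / (Real.log (al s (j + 1) ω j * Real.exp (L j n))) ^ 1

lemma CS_eq (ω : Fin (j + 1) → ℝ) (n : ℕ) :
    CS ap (fun _ => 1) b L s j ω n =
      ((xs b L (al s (j + 1) ω) (j + 1) n - xs b L (al s (j + 1) ω) j n * ys L s j ω n : ℝ) : ℂ) := by
  unfold CS ys
  rw [xs_succ, ← xs_cast]
  push_cast
  unfold ap
  split_ifs <;> simp <;> ring

theorem ae_asym2 (d : ℕ → ℝ) (hPh : Ph L k d) (hd : ∀ v, 0 < d v)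
    (hsz : ∀ v, ∃ (B : ℝ) (n0 : ℕ), 1 ≤ n0 ∧ ∀ n : ℕ, n0 ≤ n → |L v n - d v * Real.log n| ≤ B)
    (b : ℕ → ℤ) (s : ℕ → ℝ) (j : ℕ) (hj : j ≤ k) :
    ∀ᵐ ω ∂(mu j), Tendsto (fun N : ℕ => (∑ n ∈ Icc 1 N, xs b L (al s j ω) j n) *
      (Real.log N) ^ j / N) atTop (𝓝 (∏ v ∈ range j, 1 / d v)) := by
  induction j with
  | zero =>
    refine Eventually.of_forall fun ω => ?_
    simp only [xs, Finset.range_zero, Finset.prod_empty, pow_zero, mul_one]
    refine (tendsto_const_nhds (x := (1:ℝ))).congr' ?_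
    filter_upwards [eventually_ge_atTop 1] with N hN
    rw [Finset.sum_const, Nat.card_Icc, nsmul_eq_mul, mul_one, Nat.add_sub_cancel]
    rw [div_self]
    exact_mod_cast (by omega : N ≠ 0)
  | succ j ih =>
    obtain ⟨B, n1, hn1, hB⟩ := logx2 (j := j) (s := s) d (hsz j)
    have hCw := hd j
    have hl : Tendsto (fun N : ℕ => Real.log (N:ℝ)) atTop atTop := Real.tendsto_log_atTop.comp tendsto_natCast_atTop_atTop
    obtain ⟨n2, hn2⟩ := eventually_atTop.mp (hl.eventually_ge_atTop ((|B| + 1) / d j))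
    have hlog1 : ∀ ω : Fin (j + 1) → ℝ, ∀ n : ℕ, max n1 n2 ≤ n →
        1 ≤ Real.log (al s (j + 1) ω j * Real.exp (L j n)) := by
      intro ω n hn
      have h1 := hB ω n ((le_max_left _ _).trans hn)
      have h2 := hn2 n ((le_max_right _ _).trans hn)
      rw [div_le_iff₀ hCw] at h2
      have h3 := (abs_le.mp h1).1
      have h4 := le_abs_self B
      linarith
    -- the range of the frequencies
    set A : ℕ := ∑ v ∈ range k, ⌈2 * d v + 1⌉₊ with hA
    have hA' : ∀ v < k, 2 * d v + 1 ≤ (A:ℝ) := by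
      intro v hv
      have h1 : ⌈2 * d v + 1⌉₊ ≤ A :=
        Finset.single_le_sum (f := fun v => ⌈2 * d v + 1⌉₊) (fun i _ => Nat.zero_le _) (Finset.mem_range.mpr hv)
      exact (Nat.le_ceil _).trans (by exact_mod_cast h1)
    obtain ⟨J, w, B', N0, hN0, hwB, hw0, hs⟩ := hPh.sums A
    have hreg := sreg_all Pool.Agent.N216.T.FT.ft Pool.Agent.N539.T.fd Pool.Agent.N499.T.pl ap (fun _ => 1) b L s
      k A J w N0 d B' hN0 wtp hd hsz hwB hw0 hA' hs j (by omega)
    -- Borel-Cantelli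
    have hbc := Pool.Agent.N364.T.bci (Fin (j + 1) → ℝ) (mu (j + 1)) (fun ω n => CS ap (fun _ => 1) b L s j ω n)
      (max n1 n2) (fun n => CS_meas n) (by
        intro ω n hn
        rw [CS_eq, Complex.norm_real, Real.norm_eq_abs]
        have h1 := hlog1 ω n hn
        have h2 : 0 ≤ ys L s j ω n ∧ ys L s j ω n ≤ 1 := by
          unfold ys
          have h3 : 1 ≤ (Real.log (al s (j + 1) ω j * Real.exp (L j n))) ^ 1 := one_le_pow₀ h1
          exact ⟨by positivity, by rw [div_le_one (by linarith)]; exact h3⟩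
        have h3 := xs_nonneg b L (al s (j + 1) ω) (j + 1) n
        have h4 := xs_le b L (al s (j + 1) ω) (j + 1) n
        have h5 := xs_nonneg b L (al s (j + 1) ω) j n
        have h6 := xs_le b L (al s (j + 1) ω) j n
        have h7 : xs b L (al s (j + 1) ω) j n * ys L s j ω n ≤ 1 := by nlinarith [h2.1, h2.2]
        have h8 : 0 ≤ xs b L (al s (j + 1) ω) j n * ys L s j ω n := mul_nonneg h5 h2.1
        rw [abs_le]
        constructor <;> linarith)
      (ce2 Pool.Agent.N539.T.f0 Pool.Agent.N539.T.fd Pool.Agent.N499.T.pl ap (fun _ => 1) b L s k A J w N0 d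
        wtp hd hsz hw0 hA' j (by omega) hreg)
    filter_upwards [hbc, ae_succ _ (ih (by omega))] with ω hω1 hω2
    set Q : ℝ := ∏ v ∈ range j, 1 / d v with hQ
    have hQ0 : 0 < Q := Finset.prod_pos fun v _ => by
      have := hd v
      positivity
    have h1 : Tendsto (fun N : ℕ => (∑ n ∈ Icc 1 N, xs b L (al s (j + 1) ω) j n) * (Real.log N) ^ j / N) atTop (𝓝 Q) := by
      refine hω2.congr fun N => ?_
      congr 2
      refine Finset.sum_congr rfl fun n _ => ?_
      exact xs_congr _ _ _ _ _ _ fun v hv => al_cast ω v hv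
    have h2 : Tendsto (fun n : ℕ => ys L s j ω n * (d j * Real.log n) ^ 1) atTop (𝓝 1) := by
      have h3 : Tendsto (fun n : ℕ => (d j * Real.log n) /
          Real.log (al s (j + 1) ω j * Real.exp (L j n))) atTop (𝓝 1) := by
        have h4 : Tendsto (fun n : ℕ => Real.log (al s (j + 1) ω j * Real.exp (L j n)) /
            (d j * Real.log n)) atTop (𝓝 1) := by
          have h5 : Tendsto (fun n : ℕ => (Real.log (al s (j + 1) ω j * Real.exp (L j n)) -
              d j * Real.log n) / (d j * Real.log n)) atTop (𝓝 0) := by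
            refine squeeze_zero_norm' (a := fun n : ℕ => |B| / (d j * Real.log n)) ?_ ?_
            · filter_upwards [eventually_ge_atTop n1, eventually_ge_atTop 2] with n hn hn2'
              have hln : 0 < Real.log (n:ℝ) := Real.log_pos (by exact_mod_cast (by omega : 1 < n))
              rw [norm_div, Real.norm_eq_abs, Real.norm_of_nonneg (by positivity : 0 ≤ d j * Real.log n)]
              exact div_le_div_of_nonneg_right ((hB ω n hn).trans (le_abs_self B)) (by positivity)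
            · exact Tendsto.div_atTop tendsto_const_nhds (hl.const_mul_atTop hCw)
          have h6 := h5.add_const 1
          rw [zero_add] at h6
          refine h6.congr' ?_
          filter_upwards [eventually_ge_atTop 2] with n hn2'
          have hln : 0 < Real.log (n:ℝ) := Real.log_pos (by exact_mod_cast (by omega : 1 < n))
          field_simp
          ring
        have h7 := h4.inv₀ one_ne_zero
        rw [inv_one] at h7
        exact h7.congr fun n => by rw [inv_div]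
      refine h3.congr fun n => ?_
      unfold ys
      rw [pow_one, pow_one, one_div, inv_mul_eq_div]
    have h9 := Pool.Agent.N901.T.su (fun n => xs b L (al s (j + 1) ω) j n) (fun n => ys L s j ω n)
      j 1 (d j) Q (fun n => xs_nonneg _ _ _ _ _) (fun n => xs_le _ _ _ _ _)
      hCw hQ0 h1 h2
    have h10 := hω1 (j + 1)
    have h11 : Tendsto (fun N : ℕ => (∑ n ∈ Icc 1 N, (xs b L (al s (j + 1) ω) (j + 1) n -
        xs b L (al s (j + 1) ω) j n * ys L s j ω n)) * (Real.log N) ^ (j + 1) / N) atTop (𝓝 0) := by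
      refine squeeze_zero_norm' ?_ h10
      filter_upwards [eventually_ge_atTop 1] with N hN
      have hl0 : 0 ≤ Real.log (N:ℝ) := Real.log_nonneg (by exact_mod_cast hN)
      have e1 : ∑ n ∈ Icc 1 N, CS ap (fun _ => 1) b L s j ω n = ((∑ n ∈ Icc 1 N,
          (xs b L (al s (j + 1) ω) (j + 1) n - xs b L (al s (j + 1) ω) j n * ys L s j ω n) : ℝ) : ℂ) := by
        rw [Complex.ofReal_sum]
        exact Finset.sum_congr rfl fun n _ => CS_eq ω n
      rw [e1, Complex.norm_real, norm_div, norm_mul, Real.norm_of_nonneg (pow_nonneg hl0 _),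
        Real.norm_of_nonneg (Nat.cast_nonneg N)]
      apply le_of_eq
      ring
    have h12 := h9.add h11
    rw [add_zero] at h12
    have e3 : ∏ v ∈ range (j + 1), 1 / d v = Q / (d j) ^ 1 := by
      rw [Finset.prod_range_succ, ← hQ]
      ring
    rw [e3]
    refine h12.congr fun N => ?_
    rw [Finset.sum_sub_distrib]
    ring

end Pool.Agent.N798.S
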