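import Pool.Agent.N798.T.Stm

set_option autoImplicit false

/-!
Project S (helper798): simultaneous prime values of the integer parts of almost all multiples of `k` real polynomials.
-/

namespace Pool.Agent.N798.S

open Finset MeasureTheory Filter Topology
open scoped ENNReal
open Pool.Agent.H376R2.MR (er)

/-- (VD) derivative test of order `q + 1` -/
def S_VD : Prop := ∀ q : ℕ, ∃ C : ℝ, 0 < C ∧ ∀ (N L : ℕ) (u Z c0 C0 σ1 σ2 : ℝ) (φ : ℕ → ℝ → ℝ), 1 ≤ N →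
  (N : ℝ) ≤ u → u + L ≤ 3 * N → 0 < c0 → c0 ≤ 1 → 1 ≤ C0 → |σ1| = 1 → |σ2| = 1 →
  (∀ m ≤ q + 1, ∀ x ∈ Set.Icc u (u + L), HasDerivAt (φ m) (φ (m + 1) x) x) →
  (∀ x ∈ Set.Icc u (u + L), c0 ≤ σ1 * φ (q + 1) x * (N : ℝ) ^ (q + 1) ∧ σ1 * φ (q + 1) x * (N : ℝ) ^ (q + 1) ≤ C0 ∧
    0 ≤ σ2 * φ (q + 2) x) →
  (q = 0 → 0 < Z → Z * C0 ≤ N → ‖∑ n ∈ range L, er Z (φ 0 (u + n))‖ ≤ C * N / (Z * c0)) ∧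
  (1 ≤ q → √(N : ℝ) ≤ Z → Z ≤ (N : ℝ) ^ q →
    ‖∑ n ∈ range L, er Z (φ 0 (u + n))‖ ≤ C * (C0 / c0) * (N : ℝ) ^ (1 - 1 / (((q : ℝ) + 2) * 2 ^ q)))

/-- (PV) small values of a polynomial on `[1/2, 1]` -/
def S_PV : Prop := ∀ J : ℕ, ∃ c : ℝ, 0 < c ∧ ∀ (b : Fin (J + 1) → ℝ) (M : ℝ), 0 ≤ M → (∃ i, M ≤ |b i|) →
  ∃ s : Finset ℝ, s.card ≤ J ∧ ∀ ρ : ℝ, 0 < ρ → ρ ≤ 1 → ∀ y ∈ Set.Icc (1 / 2 : ℝ) 1, (∀ r ∈ s, ρ ≤ |y - r|) →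
    c * ρ ^ J * M ≤ |∑ i, b i * y ^ (i : ℕ)|

/-- (SPL) sums over an interval, away from finitely many points -/
def S_SPL : Prop := ∀ (f : ℕ → ℂ) (s : Finset ℝ) (ρ M : ℝ), (∀ n, ‖f n‖ ≤ 1) → 0 < ρ → 0 ≤ M → ∀ A B : ℕ, A ≤ B →
  (∀ A' B' : ℕ, A ≤ A' → A' ≤ B' → B' ≤ B → (∀ x ∈ Set.Icc ((A' : ℝ) + 1) B', ∀ r ∈ s, ρ ≤ |x - r|) →
    ‖∑ n ∈ Ioc A' B', f n‖ ≤ M) →
  ‖∑ n ∈ Ioc A B, f n‖ ≤ (s.card + 1) * M + s.card * (2 * ρ + 2)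

/-- (BL) exponential sums over `τ log x + ∑ e_i x^{-i}` -/
def S_BL : Prop := ∀ J A K : ℕ, ∃ (K' : ℕ) (C : ℝ), 0 < C ∧ ∀ (N N' : ℕ) (τ : ℝ) (g : Fin J → ℝ), 2 ≤ N → N ≤ N' →
  N' ≤ 2 * N → |τ| ≤ (N : ℝ) ^ A → (∀ i, |g i| / (N : ℝ) ^ ((i : ℕ) + 1) ≤ (N : ℝ) ^ A) →
  ((Real.log N) ^ K' ≤ |τ| ∨ ∃ i, (Real.log N) ^ K' ≤ |g i| / (N : ℝ) ^ ((i : ℕ) + 1)) →
  ‖∑ n ∈ Ioc N N', er 1 (τ * Real.log n + ∑ i, g i / (n : ℝ) ^ ((i : ℕ) + 1))‖ ≤ C * N / (Real.log N) ^ K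

/-- (LP) the logarithm of a polynomial -/
def S_LP : Prop := ∀ P : Polynomial ℝ, 0 < P.leadingCoeff → ∀ J : ℕ, ∃ (c : Fin J → ℝ) (C : ℝ) (n0 : ℕ), 1 ≤ n0 ∧ 0 ≤ C ∧
  ∀ n : ℕ, n0 ≤ n → 0 < P.eval (n : ℝ) ∧
    |Real.log (P.eval (n : ℝ)) - (P.natDegree * Real.log n + Real.log P.leadingCoeff + ∑ i, c i / (n : ℝ) ^ ((i : ℕ) + 1))| ≤
      C / (n : ℝ) ^ (J + 1)

/-- a system of phases `L 0, …, L (k-1)`: the linear combinations have small exponential sums, unless all of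
finitely many linear functionals of the coefficients are small -/
structure Ph (L : ℕ → ℕ → ℝ) (k : ℕ) (d : ℕ → ℝ) : Prop where
  sums : ∀ A : ℕ, ∃ (J : ℕ) (w : ℕ → ℕ → ℕ → ℝ) (B : ℝ) (N0 : ℕ), 2 ≤ N0 ∧
    (∀ N i v, N0 ≤ N → v < k → |w N i v| ≤ B) ∧ (∀ N v, w N 0 v = d v) ∧
    ∀ K : ℕ, ∃ (K' : ℕ) (C : ℝ), 0 < C ∧ ∀ (N N' : ℕ) (θ : ℕ → ℝ), N0 ≤ N → N ≤ N' → N' ≤ 2 * N →
      (∀ v < k, |θ v| ≤ (N : ℝ) ^ A) → (∃ i ≤ J, (Real.log N) ^ K' ≤ |∑ v ∈ range k, w N i v * θ v|) →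
      ‖∑ n ∈ Ioc N N', er 1 (∑ v ∈ range k, θ v * L v n)‖ ≤ C * N / (Real.log N) ^ K

/-- (PH) the logarithms of polynomials -/
def S_PH : Prop := ∀ (k : ℕ) (P : ℕ → Polynomial ℝ), (∀ v, 0 < (P v).leadingCoeff) → (∀ v, 0 < (P v).natDegree) →
  Ph (fun v n => Real.log ((P v).eval (n : ℝ))) k (fun v => ((P v).natDegree : ℝ))

/-- (FC) from the multipliers to all coefficients -/
def S_FC : Prop := ∀ (k : ℕ) (d : Fin k → ℕ) (Pr : ((v : Fin k) → Fin (d v + 1) → ℝ) → Prop), MeasurableSet {a | Pr a} →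
  (∀ β : (v : Fin k) → Fin (d v) → ℝ, ∀ᵐ α : Fin k → ℝ, (∀ v, 0 < α v) →
    Pr (fun v j => α v * (if h : (j : ℕ) < d v then β v ⟨j, h⟩ else 1))) →
  ∀ᵐ a : (v : Fin k) → Fin (d v + 1) → ℝ, (∀ v, 0 < a v (Fin.last (d v))) → Pr a

end Pool.Agent.N798.S
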