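import Pool.Agent.N798.T.RS3
import Pool.Agent.N798.S.Stm

set_option autoImplicit false

/-! Project S: the Plancherel step for the product of the weights over the nodes. -/

namespace Pool.Agent.N798.S

open Finset MeasureTheory Filter Topology
open scoped ENNReal
open Pool.Agent.H376R2.MR (er)
open Pool.Agent.N798.T

/-- the value at the node `v` -/
noncomputable def nv (b : ℕ → ℤ) (L : ℕ → ℕ → ℝ) (α : ℕ → ℝ) (n v : ℕ) : ℕ := vl (b v) (α v * Real.exp (L v n))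

/-- the product of the weights and twists over the nodes `0, …, j - 1`, and the bare twists at the nodes
`j, …, k - 1` -/
noncomputable def SW (a : ℕ → ℕ → ℂ) (b : ℕ → ℤ) (L : ℕ → ℕ → ℝ) (s : ℕ → ℝ) (k j : ℕ) (ω : Fin j → ℝ) (n : ℕ)
    (θ : ℕ → ℝ) : ℂ :=
  (∏ v ∈ range j, a v (nv b L (al s j ω) n v) * er (θ v) (Real.log (nv b L (al s j ω) n v))) *
    er 1 (∑ v ∈ Ico j k, θ v * L v n)

/-- small mean squares unless all functionals are small -/
def SReg (a : ℕ → ℕ → ℂ) (b : ℕ → ℤ) (L : ℕ → ℕ → ℝ) (s : ℕ → ℝ) (k A J : ℕ) (w : ℕ → ℕ → ℕ → ℝ) (N0 j : ℕ) : Prop :=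
  ∀ K : ℕ, ∃ (K' : ℕ) (D : ℝ), 0 ≤ D ∧ ∀ (N N' : ℕ) (θ : ℕ → ℝ), N0 ≤ N → N ≤ N' → N' ≤ 2 * N →
    (∀ v < k, |θ v| ≤ (N : ℝ) ^ A) → (∃ i ≤ J, (Real.log N) ^ K' ≤ |∑ v ∈ range k, w N i v * θ v|) →
      ∫⁻ ω, ‖∑ n ∈ Ioc N N', SW a b L s k j ω n θ‖ₑ ^ 2 ∂(mu j) ≤ ENNReal.ofReal (D * N ^ 2 / (Real.log N) ^ K)

variable {a : ℕ → ℕ → ℂ} {b : ℕ → ℤ} {L : ℕ → ℕ → ℝ} {s : ℕ → ℝ} {k j : ℕ}

lemma nv_meas (n v : ℕ) : Measurable fun ω : Fin j → ℝ => nv b L (al s j ω) n v := by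
  unfold nv
  exact (vl_meas _).comp ((al_meas v).mul_const _)

lemma nv_congr (α α' : ℕ → ℝ) (n v : ℕ) (h : α v = α' v) : nv b L α n v = nv b L α' n v := by
  unfold nv
  rw [h]

lemma SW_meas (n : ℕ) (θ : ℕ → ℝ) : Measurable fun ω => SW a b L s k j ω n θ := by
  unfold SW
  refine Measurable.mul_const (Finset.measurable_prod _ fun v _ => ?_) _
  have h1 : Measurable fun m : ℕ => a v m * er (θ v) (Real.log (m : ℝ)) := measurable_of_countable _
  exact h1.comp (nv_meas n v)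

lemma SW_le (hw : ∀ v n, ‖a v n‖ ≤ 1) (ω : Fin j → ℝ) (n : ℕ) (θ : ℕ → ℝ) : ‖SW a b L s k j ω n θ‖ ≤ 1 := by
  unfold SW
  rw [norm_mul, er_norm, mul_one, norm_prod]
  refine Finset.prod_le_one (fun _ _ => norm_nonneg _) fun v _ => ?_
  rw [norm_mul, er_norm, mul_one]
  exact hw _ _

lemma SW_upd (hj : j < k) (ω : Fin j → ℝ) (n : ℕ) (θ : ℕ → ℝ) (η : ℝ) :
    SW a b L s k j ω n (Function.update θ j η) =
      SW a b L s k j ω n (Function.update θ j 0) * er η (L j n) := by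
  unfold SW
  have h1 : ∀ x : ℝ, ∏ v ∈ range j, a v (nv b L (al s j ω) n v) *
      er (Function.update θ j x v) (Real.log (nv b L (al s j ω) n v)) =
      ∏ v ∈ range j, a v (nv b L (al s j ω) n v) * er (θ v) (Real.log (nv b L (al s j ω) n v)) := by
    intro x
    refine Finset.prod_congr rfl fun v hv => ?_
    rw [Function.update_of_ne (by have := Finset.mem_range.mp hv; omega)]
  have h2 : ∀ x : ℝ, ∑ v ∈ Ico j k, Function.update θ j x v * L v n = x * L j n + ∑ v ∈ Ico (j + 1) k, θ v * L v n := by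
    intro x
    rw [Finset.sum_eq_sum_Ico_succ_bot hj, Function.update_self]
    congr 1
    refine Finset.sum_congr rfl fun v hv => ?_
    rw [Function.update_of_ne (by have := (Finset.mem_Ico.mp hv).1; omega)]
  rw [h1 η, h1 0, h2 η, h2 0, zero_mul, zero_add, er_shift, er_scale, one_mul]
  ring

lemma SW_succ (hj : j < k) (ω : Fin j → ℝ) (u : ℝ) (hu : u ∈ Set.Icc (0:ℝ) 1) (n : ℕ) (θ : ℕ → ℝ) :
    SW a b L s k (j + 1) (Fin.snoc ω u : Fin (j + 1) → ℝ) n θ = SW a b L s k j ω n (Function.update θ j 0) *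
      (a j (vl (b j) (Real.exp (u + (s j + L j n)))) *
        er (θ j) (Real.log (vl (b j) (Real.exp (u + (s j + L j n)))))) := by
  unfold SW
  have h1 : ∏ v ∈ range j, a v (nv b L (al s j ω) n v) *
      er (Function.update θ j 0 v) (Real.log (nv b L (al s j ω) n v)) =
      ∏ v ∈ range j, a v (nv b L (al s (j + 1) (Fin.snoc ω u : Fin (j + 1) → ℝ)) n v) *
        er (θ v) (Real.log (nv b L (al s (j + 1) (Fin.snoc ω u : Fin (j + 1) → ℝ)) n v)) := by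
    refine Finset.prod_congr rfl fun v hv => ?_
    have hv' := Finset.mem_range.mp hv
    rw [Function.update_of_ne (by omega), nv_congr _ _ n v (al_old (s := s) ω u v hv')]
  have h2 : ∑ v ∈ Ico j k, Function.update θ j 0 v * L v n = ∑ v ∈ Ico (j + 1) k, θ v * L v n := by
    rw [Finset.sum_eq_sum_Ico_succ_bot hj, Function.update_self, zero_mul, zero_add]
    refine Finset.sum_congr rfl fun v hv => ?_
    rw [Function.update_of_ne (by have := (Finset.mem_Ico.mp hv).1; omega)]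
  have h3 : nv b L (al s (j + 1) (Fin.snoc ω u : Fin (j + 1) → ℝ)) n j = vl (b j) (Real.exp (u + (s j + L j n))) := by
    unfold nv
    rw [al_new, clamp_id hu, ← Real.exp_add]
    congr 2
    ring
  rw [Finset.prod_range_succ, h1, h2, h3]
  ring

lemma core2 (hpl : S_PL) (hw : ∀ v n, ‖a v n‖ ≤ 1) (hj : j < k) (θ : ℕ → ℝ) (N N' : ℕ) (hN' : N' ≤ 2 * N)
    (h : ℝ → ℂ) (hh : Measurable h) (Y R : ℝ) (hR : 0 ≤ R) (hb : ∀ y ∈ Set.Icc Y (Y + R), ‖h y‖ ≤ 2)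
    (hwin : ∀ n ∈ Ioc N N', ∀ u ∈ Set.Icc (0:ℝ) 1, u + (s j + L j n) ∈ Set.Icc Y (Y + R))
    (V : ℝ) (hV0 : 0 ≤ V) (hV : ∀ η : ℝ, 0 < |η| → ‖∫ y in Y..(Y + R), h y * er (-η) y‖ ≤ V / |η|)
    (T κ S p q : ℝ) (hT : 1 ≤ T) (hκ : 0 ≤ κ) (hS : 0 ≤ S) (hpq : p ≤ q)
    (hI : ∀ η ∈ Set.Icc p q, |η| ≤ T → ‖∫ y in Y..(Y + R), h y * er (-η) y‖ ≤ κ)
    (hO : ∀ η : ℝ, |η| ≤ T → η ∉ Set.Icc p q →
      ∫⁻ ω, ‖∑ n ∈ Ioc N N', SW a b L s k j ω n (Function.update θ j η)‖ₑ ^ 2 ∂(mu j) ≤ ENNReal.ofReal S) :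
    ∫⁻ ω, (∫⁻ u in Set.Icc (0:ℝ) 1,
      ‖∑ n ∈ Ioc N N', SW a b L s k j ω n (Function.update θ j 0) * h (u + (s j + L j n))‖ₑ ^ 2)
      ∂(mu j) ≤ ENNReal.ofReal (((q - p) * κ ^ 2 + 2 * V ^ 2 / T) * (N : ℝ) ^ 2 + 4 * R * S) := by
  set H : ℝ → ℂ := (Set.Icc Y (Y + R)).indicator h with hH
  have hYR : Y ≤ Y + R := by linarith
  have hint : ∀ η : ℝ, ∫ y, H y * er (-η) y = ∫ y in Y..(Y + R), h y * er (-η) y := by
    intro η
    rw [intervalIntegral.integral_of_le hYR, ← integral_Icc_eq_integral_Ioc, ← integral_indicator measurableSet_Icc]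
    congr 1
    funext y
    simp only [hH, Set.indicator]
    split_ifs
    · rfl
    · rw [zero_mul]
  have h1 := hpl (Fin j → ℝ) (mu j) (Ioc N N') (fun ω n => SW a b L s k j ω n (Function.update θ j 0))
    (fun _ n => s j + L j n) (fun n => SW_meas n _) (fun n => measurable_const) (fun ω n => SW_le hw ω n _)
    H (hh.indicator measurableSet_Icc) (by
      intro y
      simp only [hH, Set.indicator]
      split_ifs with hy
      · exact hb y hy
      · rw [norm_zero]; norm_num) Y R hR (by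
      intro y hy
      simp only [hH, Set.indicator, if_neg hy]) V hV0 (by
      intro η hη
      rw [hint]
      exact hV η hη) T κ S p q hT hκ hS hpq (by
      intro η hη hηT
      rw [hint]
      exact hI η hη hηT) (by
      intro η hηT hη
      refine le_trans (le_of_eq ?_) (hO η hηT hη)
      refine lintegral_congr fun ω => ?_
      have h3 : ∑ n ∈ Ioc N N', SW a b L s k j ω n (Function.update θ j 0) * er η (s j + L j n) =
          er η (s j) * ∑ n ∈ Ioc N N', SW a b L s k j ω n (Function.update θ j η) := by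
        rw [Finset.mul_sum]
        refine Finset.sum_congr rfl fun n _ => ?_
        rw [SW_upd hj ω n θ η, er_shift]
        ring
      rw [h3, enorm_mul]
      have h4 : ‖er η (s j)‖ₑ = 1 := by
        rw [← ofReal_norm, er_norm, ENNReal.ofReal_one]
      rw [h4, one_mul])
  refine le_trans (lintegral_mono fun ω => ?_) (h1.trans ?_)
  · refine le_trans (le_of_eq ?_) (setLIntegral_le_lintegral (Set.Icc (0:ℝ) 1) _)
    refine setLIntegral_congr_fun measurableSet_Icc fun u hu => ?_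
    congr 2
    refine Finset.sum_congr rfl fun n hn => ?_
    rw [hH, Set.indicator_of_mem (hwin n hn u hu)]
  · apply ENNReal.ofReal_le_ofReal
    have e1 : (mu j).real Set.univ = 1 := by simp
    rw [e1, mul_one]
    have e3 : ((Ioc N N').card : ℝ) ≤ N := by
      rw [Nat.card_Ioc]
      exact_mod_cast (by omega : N' - N ≤ N)
    have e4 : ((Ioc N N').card : ℝ) ^ 2 ≤ (N : ℝ) ^ 2 := pow_le_pow_left₀ (Nat.cast_nonneg _) e3 2
    have e5 : 0 ≤ (q - p) * κ ^ 2 + 2 * V ^ 2 / T := by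
      have : 0 ≤ q - p := by linarith
      positivity
    have := mul_le_mul_of_nonneg_left e4 e5
    linarith

/-- the window -/
lemma window2 (d : ℝ) (hd : 0 < d) (s0 : ℝ) (Lj : ℕ → ℝ) (hsz : ∃ (B : ℝ) (n0 : ℕ), 1 ≤ n0 ∧ ∀ n : ℕ, n0 ≤ n →
      |Lj n - d * Real.log n| ≤ B) :
    ∃ (y0 R : ℝ) (n0 : ℕ), 0 ≤ R ∧ 1 ≤ n0 ∧ ∀ (N N' : ℕ), n0 ≤ N → N' ≤ 2 * N → ∀ n ∈ Ioc N N',
      ∀ u ∈ Set.Icc (0:ℝ) 1, u + (s0 + Lj n) ∈ Set.Icc (d * Real.log N + y0) (d * Real.log N + y0 + R) := by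
  obtain ⟨B, n0, hn0, hB⟩ := hsz
  have hB0 : 0 ≤ B := (abs_nonneg _).trans (hB n0 le_rfl)
  have hl2 : 0 ≤ Real.log 2 := Real.log_nonneg (by norm_num)
  refine ⟨s0 - B, 1 + 2 * B + d * Real.log 2, n0, by positivity, hn0, ?_⟩
  intro N N' hN hN' n hn u hu
  obtain ⟨hn1, hn2⟩ := Finset.mem_Ioc.mp hn
  have hNpos : (0:ℝ) < N := by exact_mod_cast (by omega : 0 < N)
  have hnpos : (0:ℝ) < n := by exact_mod_cast (by omega : 0 < n)
  have l3 : Real.log N ≤ Real.log n := Real.log_le_log hNpos (by exact_mod_cast hn1.le)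
  have l4 : Real.log n ≤ Real.log 2 + Real.log N := by
    rw [← Real.log_mul (by norm_num) hNpos.ne']
    exact Real.log_le_log hnpos (by exact_mod_cast (hn2.trans hN'))
  have m1 := mul_le_mul_of_nonneg_left l3 hd.le
  have m2 := mul_le_mul_of_nonneg_left l4 hd.le
  obtain ⟨m3, m4⟩ := abs_le.mp (hB n (by omega))
  constructor
  · nlinarith [hu.1]
  · nlinarith [hu.2]

lemma sreg_zero (A J : ℕ) (w : ℕ → ℕ → ℕ → ℝ) (N0 : ℕ) (hN0 : 2 ≤ N0)
    (hs : ∀ K : ℕ, ∃ (K' : ℕ) (C : ℝ), 0 < C ∧ ∀ (N N' : ℕ) (θ : ℕ → ℝ), N0 ≤ N → N ≤ N' → N' ≤ 2 * N →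
      (∀ v < k, |θ v| ≤ (N : ℝ) ^ A) → (∃ i ≤ J, (Real.log N) ^ K' ≤ |∑ v ∈ range k, w N i v * θ v|) →
      ‖∑ n ∈ Ioc N N', er 1 (∑ v ∈ range k, θ v * L v n)‖ ≤ C * N / (Real.log N) ^ K) :
    SReg a b L s k A J w N0 0 := by
  intro K
  obtain ⟨K', C, hC, h⟩ := hs K
  have hl2 : 0 < Real.log 2 := Real.log_pos (by norm_num)
  refine ⟨K', C ^ 2 / (Real.log 2) ^ K, by positivity, fun N N' θ hN hNN hN' hθ hi => ?_⟩
  have h1 := h N N' θ hN hNN hN' hθ hi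
  have hNr : (2:ℝ) ≤ N := by exact_mod_cast (hN0.trans hN)
  have hl : Real.log 2 ≤ Real.log N := Real.log_le_log (by norm_num) hNr
  have hlK : (Real.log 2) ^ K ≤ (Real.log N) ^ K := pow_le_pow_left₀ hl2.le hl K
  have hp2 : 0 < (Real.log 2) ^ K := pow_pos hl2 K
  have hpN : 0 < (Real.log N) ^ K := hp2.trans_le hlK
  have h2 : ∀ ω : Fin 0 → ℝ, ‖∑ n ∈ Ioc N N', SW a b L s k 0 ω n θ‖ₑ ^ 2 ≤
      ENNReal.ofReal (C ^ 2 / (Real.log 2) ^ K * N ^ 2 / (Real.log N) ^ K) := by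
    intro ω
    have e1 : ∑ n ∈ Ioc N N', SW a b L s k 0 ω n θ = ∑ n ∈ Ioc N N', er 1 (∑ v ∈ range k, θ v * L v n) := by
      refine Finset.sum_congr rfl fun n _ => ?_
      unfold SW
      rw [Finset.range_zero, Finset.prod_empty, one_mul, ← Finset.range_eq_Ico]
    rw [e1, ← ofReal_norm, ← ENNReal.ofReal_pow (norm_nonneg _)]
    apply ENNReal.ofReal_le_ofReal
    refine (pow_le_pow_left₀ (norm_nonneg _) h1 2).trans ?_
    rw [div_pow, mul_pow, pow_two (Real.log (N:ℝ) ^ K), ← div_div]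
    refine div_le_div_of_nonneg_right ?_ hpN.le
    rw [div_mul_eq_mul_div]
    exact div_le_div_of_nonneg_left (by positivity) hp2 hlK
  refine (lintegral_mono h2).trans ?_
  rw [lintegral_const, measure_univ, mul_one]

end Pool.Agent.N798.S
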