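import Pool.Agent.N798.S.PS

set_option autoImplicit false
set_option maxHeartbeats 1000000

/-! Project S: the asymptotic formula with an error term, for almost every point of the cube. -/

namespace Pool.Agent.N798.S

open Finset MeasureTheory Filter Topology
open scoped ENNReal
open Pool.Agent.H376R2.MR (er)
open Pool.Agent.N798.T

/-- the expected density -/
noncomputable def ms (L : ℕ → ℕ → ℝ) (α : ℕ → ℝ) (j n : ℕ) : ℝ :=
  ∏ v ∈ range j, 1 / Real.log (α v * Real.exp (L v n))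

lemma ms_congr (L : ℕ → ℕ → ℝ) (α α' : ℕ → ℝ) (j n : ℕ) (h : ∀ v < j, α v = α' v) :
    ms L α j n = ms L α' j n := by
  unfold ms
  refine Finset.prod_congr rfl fun v hv => ?_
  rw [h v (Finset.mem_range.mp hv)]

lemma ms_succ (L : ℕ → ℕ → ℝ) (α : ℕ → ℝ) (j n : ℕ) :
    ms L α (j + 1) n = ms L α j n * (1 / Real.log (α j * Real.exp (L j n))) := by
  unfold ms
  rw [Finset.prod_range_succ]

variable {b : ℕ → ℤ} {L : ℕ → ℕ → ℝ} {s : ℕ → ℝ} {k j : ℕ}

lemma sz_of (d : ℕ → ℝ) (v : ℕ) (hsz : ∃ (B c : ℝ) (n0 : ℕ), 1 ≤ n0 ∧ ∀ n : ℕ, n0 ≤ n →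
      |L v n - (d v * Real.log n + c)| ≤ B / n) :
    ∃ (B : ℝ) (n0 : ℕ), 1 ≤ n0 ∧ ∀ n : ℕ, n0 ≤ n → |L v n - d v * Real.log n| ≤ B := by
  obtain ⟨B, c, n0, hn0, h⟩ := hsz
  refine ⟨|c| + |B|, n0, hn0, fun n hn => ?_⟩
  have h1 := h n hn
  have hn1 : (1:ℝ) ≤ n := by exact_mod_cast hn0.trans hn
  have h2 : B / n ≤ |B| := by
    rw [div_le_iff₀ (by linarith)]
    nlinarith [le_abs_self B, abs_nonneg B]
  have h3 : L v n - d v * Real.log n = (L v n - (d v * Real.log n + c)) + c := by ring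
  rw [h3]
  refine (abs_add_le _ _).trans ?_
  linarith

/-- the reciprocal logarithm is bounded and slowly varying -/
lemma ys_slow (d : ℕ → ℝ) (hd : 0 < d j) (hsz : ∃ (B c : ℝ) (n0 : ℕ), 1 ≤ n0 ∧ ∀ n : ℕ, n0 ≤ n →
      |L j n - (d j * Real.log n + c)| ≤ B / n) (ω : Fin (j + 1) → ℝ) :
    ∃ (C : ℝ) (n0 : ℕ), (∀ n, n0 ≤ n → |ys L s j ω n| ≤ C) ∧
      ∀ n, n0 ≤ n → |ys L s j ω (n + 1) - ys L s j ω n| ≤ C / n := by
  obtain ⟨B, c, n0, hn0, h⟩ := hsz
  obtain ⟨B1, n1, hn1, hB1⟩ := logx2 (s := s) (j := j) d (sz_of d j ⟨B, c, n0, hn0, h⟩)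
  obtain ⟨n2, hn2⟩ := eventually_atTop.mp (log_tend.eventually_ge_atTop ((|B1| + 1) / d j))
  set g : ℕ → ℝ := fun n => Real.log (al s (j + 1) ω j * Real.exp (L j n)) with hg
  have hg1 : ∀ n, max n1 n2 ≤ n → 1 ≤ g n := by
    intro n hn
    have h1 := hB1 ω n ((le_max_left _ _).trans hn)
    have h2 := hn2 n ((le_max_right _ _).trans hn)
    rw [div_le_iff₀ hd] at h2
    have h3 := (abs_le.mp h1).1
    have h4 := le_abs_self B1
    simp only [hg]
    linarith
  have hα : 0 < al s (j + 1) ω j := by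
    unfold al
    rw [dif_pos (by omega)]
    exact Real.exp_pos _
  have hgd : ∀ n, n0 ≤ n → |g (n + 1) - g n| ≤ (d j + 2 * |B|) / n := by
    intro n hn
    have hn1r : (1:ℝ) ≤ n := by exact_mod_cast hn0.trans hn
    have e1 : g (n + 1) - g n = L j (n + 1) - L j n := by
      simp only [hg]
      rw [Real.log_mul hα.ne' (Real.exp_pos _).ne', Real.log_mul hα.ne' (Real.exp_pos _).ne', Real.log_exp, Real.log_exp]
      ring
    have h1 := h n hn
    have h2 := h (n + 1) (by omega)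
    have h3 : B / n ≤ |B| / n := div_le_div_of_nonneg_right (le_abs_self B) (by linarith)
    have h4 : B / ((n + 1 : ℕ) : ℝ) ≤ |B| / n := by
      refine (div_le_div_of_nonneg_right (le_abs_self B) (Nat.cast_nonneg _)).trans ?_
      exact div_le_div_of_nonneg_left (abs_nonneg B) (by linarith) (by push_cast; linarith)
    have h5 : 0 ≤ Real.log ((n + 1 : ℕ) : ℝ) - Real.log n ∧ Real.log ((n + 1 : ℕ) : ℝ) - Real.log n ≤ 1 / n := by
      constructor
      · have := Real.log_le_log (by linarith : (0:ℝ) < n) (by push_cast; linarith : (n:ℝ) ≤ ((n + 1 : ℕ) : ℝ))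
        linarith
      · rw [← Real.log_div (by positivity) (by positivity)]
        have h6 : ((n + 1 : ℕ) : ℝ) / n = 1 + 1 / n := by
          push_cast
          field_simp
        rw [h6]
        have := Real.log_le_sub_one_of_pos (by positivity : (0:ℝ) < 1 + 1 / n)
        linarith
    rw [e1]
    have h7 : L j (n + 1) - L j n = (L j (n + 1) - (d j * Real.log ((n + 1 : ℕ) : ℝ) + c)) -
        (L j n - (d j * Real.log n + c)) + d j * (Real.log ((n + 1 : ℕ) : ℝ) - Real.log n) := by ring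
    rw [h7]
    refine (abs_add_le _ _).trans ?_
    have h8 : |(L j (n + 1) - (d j * Real.log ((n + 1 : ℕ) : ℝ) + c)) - (L j n - (d j * Real.log n + c))| ≤
        |B| / n + |B| / n := (abs_sub _ _).trans (add_le_add (h2.trans h4) (h1.trans h3))
    have h9 : |d j * (Real.log ((n + 1 : ℕ) : ℝ) - Real.log n)| ≤ d j * (1 / n) := by
      rw [abs_mul, abs_of_pos hd, abs_of_nonneg h5.1]
      exact mul_le_mul_of_nonneg_left h5.2 hd.le
    refine (add_le_add h8 h9).trans (le_of_eq ?_)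
    ring
  refine ⟨1 + (d j + 2 * |B|), max n0 (max n1 n2), fun n hn => ?_, fun n hn => ?_⟩
  · have h1 := hg1 n ((le_max_right _ _).trans hn)
    unfold ys
    rw [pow_one]
    change |1 / g n| ≤ _
    rw [abs_of_nonneg (by positivity)]
    have h2 : 1 / g n ≤ 1 := by rw [div_le_one (by linarith)]; exact h1
    have h3 := abs_nonneg B
    linarith
  · have h1 := hg1 n ((le_max_right _ _).trans hn)
    have h2 := hg1 (n + 1) ((le_max_right _ _).trans (hn.trans (Nat.le_succ n)))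
    have h3 := hgd n ((le_max_left _ _).trans hn)
    have hn1r : (1:ℝ) ≤ n := by exact_mod_cast hn0.trans ((le_max_left _ _).trans hn)
    unfold ys
    rw [pow_one, pow_one]
    change |1 / g (n + 1) - 1 / g n| ≤ _
    rw [div_sub_div _ _ (by linarith) (by linarith), abs_div, one_mul, mul_one]
    have h4 : 1 ≤ |g (n + 1) * g n| := by
      rw [abs_of_pos (by positivity)]
      nlinarith
    have h5 : |g n - g (n + 1)| ≤ (d j + 2 * |B|) / n := by
      rw [abs_sub_comm]; exact h3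
    calc |g n - g (n + 1)| / |g (n + 1) * g n| ≤ |g n - g (n + 1)| := div_le_self (abs_nonneg _) h4
      _ ≤ (d j + 2 * |B|) / n := h5
      _ ≤ _ := div_le_div_of_nonneg_right (by linarith) (by linarith)

theorem ae_err (d : ℕ → ℝ) (hPh : Ph L k d) (hd : ∀ v, 0 < d v)
    (hsz' : ∀ v, ∃ (B c : ℝ) (n0 : ℕ), 1 ≤ n0 ∧ ∀ n : ℕ, n0 ≤ n → |L v n - (d v * Real.log n + c)| ≤ B / n)
    (b : ℕ → ℤ) (s : ℕ → ℝ) (j : ℕ) (hj : j ≤ k) :
    ∀ᵐ ω ∂(mu j), ∀ K : ℕ, Tendsto (fun N : ℕ => (Real.log (N:ℝ)) ^ K / N *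
      |∑ n ∈ Icc 1 N, (xs b L (al s j ω) j n - ms L (al s j ω) j n)|) atTop (𝓝 0) := by
  have hsz : ∀ v, ∃ (B : ℝ) (n0 : ℕ), 1 ≤ n0 ∧ ∀ n : ℕ, n0 ≤ n → |L v n - d v * Real.log n| ≤ B :=
    fun v => sz_of d v (hsz' v)
  induction j with
  | zero =>
    refine Eventually.of_forall fun ω K => ?_
    simp only [xs, ms, Finset.range_zero, Finset.prod_empty, sub_self, Finset.sum_const_zero, abs_zero, mul_zero]
    exact tendsto_const_nhds
  | succ j ih =>
    obtain ⟨B, n1, hn1, hB⟩ := logx2 (j := j) (s := s) d (hsz j)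
    have hCw := hd j
    obtain ⟨n2, hn2⟩ := eventually_atTop.mp (log_tend.eventually_ge_atTop ((|B| + 1) / d j))
    have hlog1 : ∀ ω : Fin (j + 1) → ℝ, ∀ n : ℕ, max n1 n2 ≤ n →
        1 ≤ Real.log (al s (j + 1) ω j * Real.exp (L j n)) := by
      intro ω n hn
      have h1 := hB ω n ((le_max_left _ _).trans hn)
      have h2 := hn2 n ((le_max_right _ _).trans hn)
      rw [div_le_iff₀ hCw] at h2
      have h3 := (abs_le.mp h1).1
      have h4 := le_abs_self B
      linarith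
    set A : ℕ := ∑ v ∈ range k, ⌈2 * d v + 1⌉₊ with hA
    have hA' : ∀ v < k, 2 * d v + 1 ≤ (A:ℝ) := by
      intro v hv
      have h1 : ⌈2 * d v + 1⌉₊ ≤ A :=
        Finset.single_le_sum (f := fun v => ⌈2 * d v + 1⌉₊) (fun i _ => Nat.zero_le _) (Finset.mem_range.mpr hv)
      exact (Nat.le_ceil _).trans (by exact_mod_cast h1)
    obtain ⟨J, w, B', N0, hN0, hwB, hw0, hs⟩ := hPh.sums A
    have hreg := sreg_all Pool.Agent.N216.T.FT.ft Pool.Agent.N539.T.fd Pool.Agent.N499.T.pl ap (fun _ => 1) b L s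
      k A J w N0 d B' hN0 wtp hd hsz hwB hw0 hA' hs j (by omega)
    have hbc := Pool.Agent.N364.T.bci (Fin (j + 1) → ℝ) (mu (j + 1)) (fun ω n => CS ap (fun _ => 1) b L s j ω n)
      (max n1 n2) (fun n => CS_meas n) (by
        intro ω n hn
        rw [CS_eq, Complex.norm_real, Real.norm_eq_abs]
        have h1 := hlog1 ω n hn
        have h2 : 0 ≤ ys L s j ω n ∧ ys L s j ω n ≤ 1 := by
          unfold ys
          have h3 : 1 ≤ (Real.log (al s (j + 1) ω j * Real.exp (L j n))) ^ 1 := one_le_pow₀ h1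
          exact ⟨by positivity, by rw [div_le_one (by linarith)]; exact h3⟩
        have h3 := xs_nonneg b L (al s (j + 1) ω) (j + 1) n
        have h4 := xs_le b L (al s (j + 1) ω) (j + 1) n
        have h5 := xs_nonneg b L (al s (j + 1) ω) j n
        have h6 := xs_le b L (al s (j + 1) ω) j n
        have h7 : xs b L (al s (j + 1) ω) j n * ys L s j ω n ≤ 1 := by nlinarith [h2.1, h2.2]
        have h8 : 0 ≤ xs b L (al s (j + 1) ω) j n * ys L s j ω n := mul_nonneg h5 h2.1
        rw [abs_le]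
        constructor <;> linarith)
      (ce2 Pool.Agent.N539.T.f0 Pool.Agent.N539.T.fd Pool.Agent.N499.T.pl ap (fun _ => 1) b L s k A J w N0 d
        wtp hd hsz hw0 hA' j (by omega) hreg)
    filter_upwards [hbc, ae_succ _ (ih (by omega))] with ω hω1 hω2 K
    obtain ⟨C, n3, hC1, hC2⟩ := ys_slow (s := s) d hCw (hsz' j) ω
    have hz : ∀ K : ℕ, Tendsto (fun N : ℕ => (Real.log (N:ℝ)) ^ K / N *
        |∑ n ∈ Icc 1 N, (xs b L (al s (j + 1) ω) j n - ms L (al s (j + 1) ω) j n)|) atTop (𝓝 0) := by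
      intro K
      refine (hω2 K).congr fun N => ?_
      congr 2
      refine Finset.sum_congr rfl fun n _ => ?_
      rw [xs_congr _ _ _ _ _ _ fun v hv => al_cast (s := s) ω v hv, ms_congr _ _ _ _ _ fun v hv => al_cast (s := s) ω v hv]
    have h1 := slow _ (fun n => ys L s j ω n) C n3 hC1 hC2 hz K
    have h2 := (hω1 K).add h1
    rw [add_zero] at h2
    refine squeeze_zero' ?_ ?_ h2
    · filter_upwards [eventually_ge_atTop 1] with N hN
      have : 0 ≤ Real.log (N:ℝ) := Real.log_nonneg (by exact_mod_cast hN)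
      positivity
    · filter_upwards [eventually_ge_atTop 1] with N hN
      have hl : 0 ≤ Real.log (N:ℝ) := Real.log_nonneg (by exact_mod_cast hN)
      rw [← mul_add]
      refine mul_le_mul_of_nonneg_left ?_ (by positivity)
      have e1 : ∑ n ∈ Icc 1 N, CS ap (fun _ => 1) b L s j ω n = ((∑ n ∈ Icc 1 N,
          (xs b L (al s (j + 1) ω) (j + 1) n - xs b L (al s (j + 1) ω) j n * ys L s j ω n) : ℝ) : ℂ) := by
        rw [Complex.ofReal_sum]
        exact Finset.sum_congr rfl fun n _ => CS_eq ω n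
      rw [e1, Complex.norm_real, Real.norm_eq_abs]
      refine le_trans (le_of_eq ?_) (abs_add_le _ _)
      congr 1
      rw [← Finset.sum_add_distrib]
      refine Finset.sum_congr rfl fun n _ => ?_
      rw [ms_succ]
      unfold ys
      rw [pow_one]
      ring

end Pool.Agent.N798.S
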