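import Pool.Agent.N798.S.Er
import Pool.Agent.N701.S.VD
import Pool.Agent.N933.S.PV
import Pool.Agent.N75.S.SPL
import Pool.Agent.N768.S.BL
import Pool.Agent.N803.S.LP
import Pool.Agent.N99.S.PH
import Pool.Agent.N72.S.FC

set_option autoImplicit false
set_option maxHeartbeats 1000000

/-! Project S: the final statements. -/

namespace Pool.Agent.N798.S

open Finset MeasureTheory Filter Topology Polynomial
open scoped ENNReal
open Pool.Agent.H376R2.MR (er)
open Pool.Agent.N798.T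

/-- the number of `1 ≤ n ≤ N` for which all the `⌊α_v P_v(n)⌋ + b_v` are primes -/
noncomputable def cnt {k : ℕ} (P : Fin k → ℝ[X]) (b : Fin k → ℤ) (α : Fin k → ℝ) (N : ℕ) : ℕ :=
  #((Icc 1 N).filter fun n : ℕ => ∀ v, (⌊α v * (P v).eval (n : ℝ)⌋ + b v).toNat.Prime)

/-- the expected number -/
noncomputable def mt {k : ℕ} (P : Fin k → ℝ[X]) (α : Fin k → ℝ) (N : ℕ) : ℝ :=
  ∑ n ∈ Icc 1 N, ∏ v, 1 / Real.log (α v * (P v).eval (n : ℝ))

/-- the good multipliers -/
def Good {k : ℕ} (P : Fin k → ℝ[X]) (b : Fin k → ℤ) (α : Fin k → ℝ) : Prop :=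
  Tendsto (fun N : ℕ => (cnt P b α N : ℝ) * (Real.log N) ^ k / N) atTop (𝓝 (∏ v, 1 / ((P v).natDegree : ℝ))) ∧
  ∀ K : ℕ, Tendsto (fun N : ℕ => (Real.log N) ^ K / N * |(cnt P b α N : ℝ) - mt P α N|) atTop (𝓝 0)

lemma fin_diff (f g : ℕ → ℝ) (n0 : ℕ) (h : ∀ n, n0 ≤ n → f n = g n) (N : ℕ) :
    |∑ n ∈ Icc 1 N, f n - ∑ n ∈ Icc 1 N, g n| ≤ ∑ n ∈ range n0, |f n - g n| := by
  rw [← Finset.sum_sub_distrib]
  refine (Finset.abs_sum_le_sum_abs _ _).trans ?_
  have h1 : ∑ n ∈ Icc 1 N, |f n - g n| = ∑ n ∈ (Icc 1 N).filter (fun n => n < n0), |f n - g n| := by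
    rw [Finset.sum_filter]
    refine Finset.sum_congr rfl fun n _ => ?_
    split_ifs with hlt
    · rfl
    · rw [h n (by omega), sub_self, abs_zero]
  rw [h1]
  refine Finset.sum_le_sum_of_subset_of_nonneg ?_ fun i _ _ => abs_nonneg _
  intro n hn
  rw [Finset.mem_filter] at hn
  exact Finset.mem_range.mpr hn.2

lemma const_small (K : ℕ) (u : ℕ → ℝ) (c : ℝ) (hu : ∀ N, |u N| ≤ c) :
    Tendsto (fun N : ℕ => (Real.log (N:ℝ)) ^ K / N * |u N|) atTop (𝓝 0) := by
  have h1 := (logK_div K).mul_const c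
  rw [zero_mul] at h1
  refine squeeze_zero' ?_ ?_ h1
  · filter_upwards [eventually_ge_atTop 1] with N hN
    have : 0 ≤ Real.log (N:ℝ) := Real.log_nonneg (by exact_mod_cast hN)
    positivity
  · filter_upwards [eventually_ge_atTop 1] with N hN
    have : 0 ≤ Real.log (N:ℝ) := Real.log_nonneg (by exact_mod_cast hN)
    exact mul_le_mul_of_nonneg_left (hu N) (by positivity)

theorem cube_good {k : ℕ} (P : Fin k → ℝ[X]) (hP : ∀ v, 0 < (P v).leadingCoeff) (hD : ∀ v, 0 < (P v).natDegree)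
    (b : Fin k → ℤ) (s : ℕ → ℝ) : ∀ᵐ ω ∂(mu k), Good P b (fun j : Fin k => al s k ω j) := by
  set Pe : ℕ → ℝ[X] := fun v => if h : v < k then P ⟨v, h⟩ else X with hPe
  set be : ℕ → ℤ := fun v => if h : v < k then b ⟨v, h⟩ else 0 with hbe
  have hPe1 : ∀ v : Fin k, Pe v = P v := fun v => by simp only [hPe, dif_pos v.2]
  have hbe1 : ∀ v : Fin k, be v = b v := fun v => by simp only [hbe, dif_pos v.2]
  have hlc : ∀ v, 0 < (Pe v).leadingCoeff := by
    intro v
    simp only [hPe]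
    split_ifs
    · exact hP _
    · rw [leadingCoeff_X]; exact one_pos
  have hdg : ∀ v, 0 < (Pe v).natDegree := by
    intro v
    simp only [hPe]
    split_ifs
    · exact hD _
    · rw [natDegree_X]; exact one_pos
  set L : ℕ → ℕ → ℝ := fun v n => Real.log ((Pe v).eval (n : ℝ)) with hL
  set d : ℕ → ℝ := fun v => ((Pe v).natDegree : ℝ) with hd'
  have hd : ∀ v, 0 < d v := fun v => by simp only [hd']; exact_mod_cast hdg v
  have hPh : Ph L k d := Pool.Agent.N99.S.ph
    (Pool.Agent.N768.S.bl Pool.Agent.N701.S.vd Pool.Agent.N933.S.pv Pool.Agent.N75.S.spl) Pool.Agent.N803.S.lp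
    k Pe hlc hdg
  have hpos : ∀ v, ∃ n0 : ℕ, 1 ≤ n0 ∧ ∀ n : ℕ, n0 ≤ n → 0 < (Pe v).eval (n : ℝ) := by
    intro v
    obtain ⟨c, C, n0, hn0, _, h⟩ := Pool.Agent.N803.S.lp (Pe v) (hlc v) 0
    exact ⟨n0, hn0, fun n hn => (h n hn).1⟩
  have hsz' : ∀ v, ∃ (B c : ℝ) (n0 : ℕ), 1 ≤ n0 ∧ ∀ n : ℕ, n0 ≤ n → |L v n - (d v * Real.log n + c)| ≤ B / n := by
    intro v
    obtain ⟨c, C, n0, hn0, _, h⟩ := Pool.Agent.N803.S.lp (Pe v) (hlc v) 0
    refine ⟨C, Real.log (Pe v).leadingCoeff, n0, hn0, fun n hn => ?_⟩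
    have h1 := (h n hn).2
    rw [Finset.univ_eq_empty, Finset.sum_empty, add_zero, zero_add, pow_one] at h1
    exact h1
  have hsz : ∀ v, ∃ (B : ℝ) (n0 : ℕ), 1 ≤ n0 ∧ ∀ n : ℕ, n0 ≤ n → |L v n - d v * Real.log n| ≤ B :=
    fun v => sz_of d v (hsz' v)
  choose m0 hm1 hm2 using hpos
  set n0 := (range k).sup m0 with hn0
  filter_upwards [ae_asym2 d hPh hd hsz be s k le_rfl, ae_err d hPh hd hsz' be s k le_rfl] with ω h1 h2
  set α : Fin k → ℝ := fun j => al s k ω j with hα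
  have hE : ∀ (v : Fin k) (n : ℕ), n0 ≤ n → Real.exp (L v n) = (P v).eval (n : ℝ) := by
    intro v n hn
    have h3 : m0 v ≤ n := (Finset.le_sup (f := m0) (Finset.mem_range.mpr v.2)).trans hn
    have h4 := hm2 v n h3
    simp only [hL]
    rw [Real.exp_log h4, hPe1]
  have hxs : ∀ n, n0 ≤ n → xs be L (al s k ω) k n =
      if (∀ v : Fin k, (⌊α v * (P v).eval (n : ℝ)⌋ + b v).toNat.Prime) then 1 else 0 := by
    intro n hn
    have h3 : ∀ v : Fin k, nv be L (al s k ω) n v = (⌊α v * (P v).eval (n : ℝ)⌋ + b v).toNat := by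
      intro v
      unfold nv vl
      rw [hE v n hn, hbe1]
    unfold xs
    rw [Finset.prod_range]
    split_ifs with h
    · refine Finset.prod_eq_one fun v _ => ?_
      rw [h3, if_pos (h v)]
    · push Not at h
      obtain ⟨v, hv⟩ := h
      refine Finset.prod_eq_zero (Finset.mem_univ v) ?_
      rw [h3, if_neg hv]
  have hms : ∀ n, n0 ≤ n → ms L (al s k ω) k n = ∏ v, 1 / Real.log (α v * (P v).eval (n : ℝ)) := by
    intro n hn
    unfold ms
    rw [Finset.prod_range]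
    refine Finset.prod_congr rfl fun v _ => ?_
    rw [hE v n hn]
  have hcnt : ∀ N, (cnt P b α N : ℝ) = ∑ n ∈ Icc 1 N,
      if (∀ v : Fin k, (⌊α v * (P v).eval (n : ℝ)⌋ + b v).toNat.Prime) then (1:ℝ) else 0 := by
    intro N
    unfold cnt
    rw [Finset.sum_boole]
  have hc1 := fun N => fin_diff _ _ n0 (fun n hn => (hxs n hn).symm) N
  have hc2 := fun N => fin_diff _ _ n0 (fun n hn => (hms n hn).symm) N
  constructor
  · have e1 : ∏ v : Fin k, 1 / ((P v).natDegree : ℝ) = ∏ v ∈ range k, 1 / d v := by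
      rw [Finset.prod_range]
      refine Finset.prod_congr rfl fun v _ => ?_
      simp only [hd', hPe1]
    rw [e1]
    have h3 := const_small k _ _ hc1
    have h4 : Tendsto (fun N : ℕ => (Real.log (N:ℝ)) ^ k / N * ((∑ n ∈ Icc 1 N,
      if (∀ v : Fin k, (⌊α v * (P v).eval (n : ℝ)⌋ + b v).toNat.Prime) then (1:ℝ) else 0) -
        ∑ n ∈ Icc 1 N, xs be L (al s k ω) k n)) atTop (𝓝 0) := by
      refine squeeze_zero_norm' ?_ h3
      filter_upwards [eventually_ge_atTop 1] with N hN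
      have : 0 ≤ Real.log (N:ℝ) := Real.log_nonneg (by exact_mod_cast hN)
      rw [norm_mul, Real.norm_of_nonneg (by positivity : 0 ≤ (Real.log (N:ℝ)) ^ k / N), Real.norm_eq_abs]
    have h5 := h1.add h4
    rw [add_zero] at h5
    refine h5.congr fun N => ?_
    rw [hcnt]
    ring
  · intro K
    have h3 := ((h2 K).add (const_small K _ _ hc1)).add (const_small K _ _ hc2)
    rw [add_zero, add_zero] at h3
    refine squeeze_zero' ?_ ?_ h3
    · filter_upwards [eventually_ge_atTop 1] with N hN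
      have : 0 ≤ Real.log (N:ℝ) := Real.log_nonneg (by exact_mod_cast hN)
      positivity
    · filter_upwards [eventually_ge_atTop 1] with N hN
      have : 0 ≤ Real.log (N:ℝ) := Real.log_nonneg (by exact_mod_cast hN)
      rw [← mul_add, ← mul_add]
      refine mul_le_mul_of_nonneg_left ?_ (by positivity)
      rw [hcnt, mt, Finset.sum_sub_distrib]
      set a1 := ∑ n ∈ Icc 1 N, if (∀ v : Fin k, (⌊α v * (P v).eval (n : ℝ)⌋ + b v).toNat.Prime) then (1:ℝ) else 0
      set a2 := ∑ n ∈ Icc 1 N, xs be L (al s k ω) k n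
      set a3 := ∑ n ∈ Icc 1 N, ms L (al s k ω) k n
      set a4 := ∑ n ∈ Icc 1 N, ∏ v, 1 / Real.log (α v * (P v).eval (n : ℝ))
      have e1 : a1 - a4 = (a2 - a3) + (a1 - a2) - (a4 - a3) := by ring
      rw [e1]
      refine (abs_sub _ _).trans ?_
      have := abs_add_le (a2 - a3) (a1 - a2)
      linarith

theorem main_poly {k : ℕ} (P : Fin k → ℝ[X]) (hP : ∀ v, 0 < (P v).leadingCoeff) (hD : ∀ v, 0 < (P v).natDegree) :
    ∀ᵐ α : Fin k → ℝ, (∀ i, 0 < α i) → ∀ b : Fin k → ℤ, Good P b α := by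
  have h1 : ∀ b : Fin k → ℤ, ∀ᵐ α ∂((volume : Measure (Fin k → ℝ)).restrict {α | ∀ i, 0 < α i}), Good P b α :=
    fun b => Pool.Agent.N262.T.cu k _ fun s => cube_good P hP hD b s
  have h2 := ae_all_iff.mpr h1
  have hm : MeasurableSet {α : Fin k → ℝ | ∀ i, 0 < α i} := by
    rw [Set.ofPred_forall]
    exact MeasurableSet.iInter fun i => measurableSet_lt measurable_const (measurable_pi_apply i)
  rwa [ae_restrict_iff' hm] at h2

/-- the polynomial with the coefficients `a` -/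
noncomputable def pl {D : ℕ} (a : Fin (D + 1) → ℝ) (x : ℝ) : ℝ := ∑ j, a j * x ^ (j : ℕ)

/-- the number of `1 ≤ n ≤ N` for which all the `⌊f_v(n)⌋ + b_v` are primes -/
noncomputable def rcnt {k : ℕ} (d : Fin k → ℕ) (a : (v : Fin k) → Fin (d v + 1) → ℝ) (b : Fin k → ℤ) (N : ℕ) : ℕ :=
  #((Icc 1 N).filter fun n : ℕ => ∀ v, (⌊pl (a v) n⌋ + b v).toNat.Prime)

noncomputable def rmt {k : ℕ} (d : Fin k → ℕ) (a : (v : Fin k) → Fin (d v + 1) → ℝ) (N : ℕ) : ℝ :=
  ∑ n ∈ Icc 1 N, ∏ v, 1 / Real.log (pl (a v) n)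

/-- the good coefficients -/
def RGood {k : ℕ} (d : Fin k → ℕ) (a : (v : Fin k) → Fin (d v + 1) → ℝ) : Prop :=
  ∀ b : Fin k → ℤ,
    Tendsto (fun N : ℕ => (rcnt d a b N : ℝ) * (Real.log N) ^ k / N) atTop (𝓝 (∏ v, 1 / (d v : ℝ))) ∧
    ∀ K : ℕ, Tendsto (fun N : ℕ => (Real.log N) ^ K / N * |(rcnt d a b N : ℝ) - rmt d a N|) atTop (𝓝 0)

lemma pl_meas {k : ℕ} (d : Fin k → ℕ) (v : Fin k) (x : ℝ) :
    Measurable fun a : (v : Fin k) → Fin (d v + 1) → ℝ => pl (a v) x := by
  unfold pl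
  refine Finset.measurable_fun_sum _ fun j _ => Measurable.mul_const ?_ _
  exact (measurable_pi_apply j).comp (measurable_pi_apply v)

lemma rcnt_meas {k : ℕ} (d : Fin k → ℕ) (b : Fin k → ℤ) (N : ℕ) :
    Measurable fun a : (v : Fin k) → Fin (d v + 1) → ℝ => (rcnt d a b N : ℝ) := by
  have h1 : (fun a : (v : Fin k) → Fin (d v + 1) → ℝ => (rcnt d a b N : ℝ)) = fun a => ∑ n ∈ Icc 1 N, ∏ v,
      if ((vl (b v) (pl (a v) n))).Prime then (1:ℝ) else 0 := by
    funext a
    unfold rcnt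
    rw [← Finset.sum_boole]
    refine Finset.sum_congr rfl fun n _ => ?_
    split_ifs with h
    · symm
      refine Finset.prod_eq_one fun v _ => ?_
      unfold vl
      rw [if_pos (h v)]
    · symm
      push Not at h
      obtain ⟨v, hv⟩ := h
      refine Finset.prod_eq_zero (Finset.mem_univ v) ?_
      unfold vl
      rw [if_neg hv]
  rw [h1]
  refine Finset.measurable_fun_sum _ fun n _ => Finset.measurable_fun_prod _ fun v _ => ?_
  have h2 : Measurable fun m : ℕ => if m.Prime then (1:ℝ) else 0 := measurable_of_countable _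
  exact h2.comp ((vl_meas _).comp (pl_meas d v n))

lemma rmt_meas {k : ℕ} (d : Fin k → ℕ) (N : ℕ) :
    Measurable fun a : (v : Fin k) → Fin (d v + 1) → ℝ => rmt d a N := by
  unfold rmt
  refine Finset.measurable_fun_sum _ fun n _ => Finset.measurable_fun_prod _ fun v _ => ?_
  exact Measurable.const_div (Real.measurable_log.comp (pl_meas d v n)) 1

lemma RGood_meas {k : ℕ} (d : Fin k → ℕ) : MeasurableSet {a : (v : Fin k) → Fin (d v + 1) → ℝ | RGood d a} := by
  unfold RGood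
  rw [Set.ofPred_forall]
  refine MeasurableSet.iInter fun b => ?_
  rw [Set.ofPred_and]
  refine MeasurableSet.inter ?_ ?_
  · exact measurableSet_tendsto _ fun N => ((rcnt_meas d b N).mul_const _).div_const _
  · rw [Set.ofPred_forall]
    refine MeasurableSet.iInter fun K => ?_
    exact measurableSet_tendsto _ fun N => (((rcnt_meas d b N).sub (rmt_meas d N)).abs).const_mul _

theorem main_all {k : ℕ} (d : Fin k → ℕ) (hd : ∀ v, 0 < d v) :
    ∀ᵐ a : (v : Fin k) → Fin (d v + 1) → ℝ, (∀ v, 0 < a v (Fin.last (d v))) → RGood d a := by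
  refine Pool.Agent.N72.S.fc k d (RGood d) (RGood_meas d) fun β => ?_
  set P : Fin k → ℝ[X] := fun v => X ^ (d v) + ∑ j : Fin (d v), C (β v j) * X ^ (j : ℕ) with hP
  have hdeg : ∀ v, (∑ j : Fin (d v), C (β v j) * X ^ (j : ℕ) : ℝ[X]).degree < (d v : ℕ) := by
    intro v
    refine (Polynomial.degree_sum_le _ _).trans_lt ?_
    rw [Finset.sup_lt_iff (WithBot.bot_lt_coe _)]
    intro j _
    refine (Polynomial.degree_C_mul_X_pow_le _ _).trans_lt ?_
    exact_mod_cast j.2
  have hmon : ∀ v, (P v).Monic := fun v => Polynomial.monic_X_pow_add (hdeg v)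
  have hnd : ∀ v, (P v).natDegree = d v := by
    intro v
    have h1 : (P v).degree = (d v : ℕ) := by
      simp only [hP]
      rw [Polynomial.degree_add_eq_left_of_degree_lt (by rw [Polynomial.degree_X_pow]; exact hdeg v),
        Polynomial.degree_X_pow]
    exact Polynomial.natDegree_eq_of_degree_eq_some h1
  have hev : ∀ (v : Fin k) (α x : ℝ),
      pl (fun j : Fin (d v + 1) => α * (if h : (j : ℕ) < d v then β v ⟨j, h⟩ else 1)) x = α * (P v).eval x := by
    intro v α x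
    unfold pl
    simp only [hP, eval_add, eval_pow, eval_X, eval_finsetSum, eval_mul, eval_C]
    rw [Fin.sum_univ_castSucc]
    simp only [Fin.val_castSucc, Fin.is_lt, dif_pos, Fin.val_last, lt_irrefl, dif_neg, not_false_iff, mul_one]
    rw [mul_add, add_comm, Finset.mul_sum]
    congr 1
    refine Finset.sum_congr rfl fun j _ => ?_
    ring
  have h1 := main_poly P (fun v => by rw [(hmon v).leadingCoeff]; exact one_pos) (fun v => by rw [hnd]; exact hd v)
  filter_upwards [h1] with α hα hpos b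
  obtain ⟨h2, h3⟩ := hα hpos b
  have ec : ∀ N, rcnt d (fun v j => α v * (if h : (j : ℕ) < d v then β v ⟨j, h⟩ else 1)) b N = cnt P b α N := by
    intro N
    unfold rcnt cnt
    congr 1
    refine Finset.filter_congr fun n _ => ?_
    simp only [hev]
  have em : ∀ N, rmt d (fun v j => α v * (if h : (j : ℕ) < d v then β v ⟨j, h⟩ else 1)) N = mt P α N := by
    intro N
    unfold rmt mt
    refine Finset.sum_congr rfl fun n _ => Finset.prod_congr rfl fun v _ => ?_
    rw [hev]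
  refine ⟨?_, fun K => ?_⟩
  · simp only [ec]
    simp only [hnd] at h2
    exact h2
  · simp only [ec, em]
    exact h3 K

end Pool.Agent.N798.S
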