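import Pool.Agent.N798.S.As

set_option autoImplicit false
set_option maxHeartbeats 1000000

/-! Project S: partial summation with arbitrary powers of the logarithm. -/

namespace Pool.Agent.N798.S

open Finset MeasureTheory Filter Topology
open scoped ENNReal

lemma log_tend : Tendsto (fun N : ℕ => Real.log (N:ℝ)) atTop atTop :=
  Real.tendsto_log_atTop.comp tendsto_natCast_atTop_atTop

lemma logK_div (K : ℕ) : Tendsto (fun N : ℕ => (Real.log (N:ℝ)) ^ K / N) atTop (𝓝 0) := by
  have h := (Real.isLittleO_pow_log_id_atTop (n := K)).tendsto_div_nhds_zero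
  exact h.comp (tendsto_natCast_atTop_atTop (R := ℝ))

/-- averages of a sequence which is `o(1 / (log n)^K)` -/
lemma cesaro_log (K : ℕ) (u : ℕ → ℝ) (hu0 : ∀ n, 0 ≤ u n)
    (hu : Tendsto (fun n : ℕ => (Real.log (n:ℝ)) ^ K * u n) atTop (𝓝 0)) :
    Tendsto (fun N : ℕ => (Real.log (N:ℝ)) ^ K / N * ∑ n ∈ Icc 1 N, u n) atTop (𝓝 0) := by
  have hbd : ∃ M : ℝ, 0 < M ∧ ∀ n, u n ≤ M := by
    obtain ⟨n1, hn1⟩ := eventually_atTop.mp ((hu.eventually_le_const (show (0:ℝ) < 1 by norm_num)).and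
      (log_tend.eventually_ge_atTop 1))
    have h2 : ∀ n, n1 ≤ n → u n ≤ 1 := by
      intro n hn
      obtain ⟨h3, h4⟩ := hn1 n hn
      have h5 : 1 ≤ (Real.log (n:ℝ)) ^ K := one_le_pow₀ h4
      nlinarith [hu0 n]
    refine ⟨1 + ∑ n ∈ range n1, u n, by have := Finset.sum_nonneg fun i (_ : i ∈ range n1) => hu0 i; linarith, fun n => ?_⟩
    have h6 : 0 ≤ ∑ n ∈ range n1, u n := Finset.sum_nonneg fun i _ => hu0 i
    rcases lt_or_ge n n1 with hlt | hge
    · have := Finset.single_le_sum (f := u) (fun i _ => hu0 i) (Finset.mem_range.mpr hlt)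
      linarith
    · linarith [h2 n hge]
  obtain ⟨M, hM, hMu⟩ := hbd
  rw [Metric.tendsto_atTop]
  intro ε hε
  have hε' : 0 < ε / (4 * 2 ^ K) := by positivity
  obtain ⟨n1, hn1⟩ := eventually_atTop.mp ((hu.eventually_lt_const hε').and (log_tend.eventually_ge_atTop 1))
  -- the small terms
  have hsm : Tendsto (fun N : ℕ => (Real.log (N:ℝ)) ^ K / N * (M * (√(N:ℝ)) + M * n1)) atTop (𝓝 0) := by
    have h1 : Tendsto (fun x : ℝ => (Real.log x) ^ K / x * (M * √x + M * n1)) atTop (𝓝 0) := by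
      have h2 : Tendsto (fun x : ℝ => (Real.log x) ^ K / x ^ (1/2 : ℝ)) atTop (𝓝 0) := by
        have := isLittleO_log_rpow_rpow_atTop (K:ℝ) (show (0:ℝ) < 1/2 by norm_num)
        have h3 := this.tendsto_div_nhds_zero
        refine h3.congr fun x => ?_
        rw [Real.rpow_natCast]
      have h4 : Tendsto (fun x : ℝ => (Real.log x) ^ K / x) atTop (𝓝 0) :=
        (Real.isLittleO_pow_log_id_atTop (n := K)).tendsto_div_nhds_zero
      have h5 := (h2.const_mul M).add (h4.mul_const (M * n1))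
      rw [mul_zero, zero_mul, add_zero] at h5
      refine h5.congr' ?_
      filter_upwards [eventually_gt_atTop 0] with x hx
      have h6 : √x = x ^ (1/2 : ℝ) := Real.sqrt_eq_rpow x
      have h7 : x ^ (1/2 : ℝ) * x ^ (1/2 : ℝ) = x := by
        rw [← Real.rpow_add hx]; norm_num
      have h8 : 0 < x ^ (1/2 : ℝ) := Real.rpow_pos_of_pos hx _
      rw [h6]
      field_simp
      nlinarith [congrArg (fun t => Real.log x ^ K * t) h7]
    exact h1.comp (tendsto_natCast_atTop_atTop (R := ℝ))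
  obtain ⟨N2, hN2⟩ := eventually_atTop.mp (hsm.eventually_lt_const (show (0:ℝ) < ε / 2 by positivity))
  refine ⟨max (max N2 n1) 2, fun N hN => ?_⟩
  have hNa : N2 ≤ N := (le_max_left _ _).trans ((le_max_left _ _).trans hN)
  have hNb : n1 ≤ N := (le_max_right _ _).trans ((le_max_left _ _).trans hN)
  have hNc : 2 ≤ N := (le_max_right _ _).trans hN
  have hNr : (0:ℝ) < N := by exact_mod_cast (by omega : 0 < N)
  have hlog : 0 < Real.log (N:ℝ) := Real.log_pos (by exact_mod_cast (by omega : 1 < N))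
  have hS0 : 0 ≤ ∑ n ∈ Icc 1 N, u n := Finset.sum_nonneg fun i _ => hu0 i
  rw [Real.dist_eq, sub_zero, abs_of_nonneg (by positivity)]
  have hsplit : ∑ n ∈ Icc 1 N, u n ≤ (M * √(N:ℝ) + M * n1) + N * (ε / (4 * 2 ^ K) * 2 ^ K / (Real.log N) ^ K) := by
    have h1 : ∀ n ∈ Icc 1 N, u n ≤ (if (n:ℝ) ≤ √N then M else 0) + (if n < n1 then M else 0) +
        ε / (4 * 2 ^ K) * 2 ^ K / (Real.log N) ^ K := by
      intro n hn
      rw [Finset.mem_Icc] at hn
      have hpos : 0 ≤ ε / (4 * 2 ^ K) * 2 ^ K / (Real.log N) ^ K := by positivity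
      by_cases ha : (n:ℝ) ≤ √N
      · rw [if_pos ha]
        have : 0 ≤ (if n < n1 then M else 0) := by split_ifs; exacts [hM.le, le_rfl]
        linarith [hMu n]
      · rw [if_neg ha]
        by_cases hb : n < n1
        · rw [if_pos hb]; linarith [hMu n]
        · rw [if_neg hb]
          push Not at ha hb
          obtain ⟨h2, h3⟩ := hn1 n hb
          have h4 : Real.log N ≤ 2 * Real.log n := by
            have h5 : Real.log (√(N:ℝ)) ≤ Real.log n := Real.log_le_log (Real.sqrt_pos.mpr hNr) ha.le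
            rw [Real.log_sqrt hNr.le] at h5
            linarith
          have h6 : (Real.log N) ^ K ≤ 2 ^ K * (Real.log n) ^ K := by
            rw [← mul_pow]
            exact pow_le_pow_left₀ hlog.le h4 K
          have h7 : u n ≤ ε / (4 * 2 ^ K) * 2 ^ K / (Real.log N) ^ K := by
            rw [le_div_iff₀ (by positivity)]
            calc u n * (Real.log N) ^ K ≤ u n * (2 ^ K * (Real.log n) ^ K) := mul_le_mul_of_nonneg_left h6 (hu0 n)
              _ = ((Real.log n) ^ K * u n) * 2 ^ K := by ring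
              _ ≤ _ := mul_le_mul_of_nonneg_right h2.le (by positivity)
          linarith
    refine (Finset.sum_le_sum h1).trans ?_
    rw [Finset.sum_add_distrib, Finset.sum_add_distrib, Finset.sum_const, Nat.card_Icc, Nat.add_sub_cancel, nsmul_eq_mul]
    have h8 : ∑ n ∈ Icc 1 N, (if (n:ℝ) ≤ √N then M else 0) ≤ M * √(N:ℝ) := by
      rw [← Finset.sum_filter, Finset.sum_const, nsmul_eq_mul, mul_comm]
      refine mul_le_mul_of_nonneg_left ?_ hM.le
      have h9 : (Icc 1 N).filter (fun n : ℕ => (n:ℝ) ≤ √N) ⊆ Icc 1 ⌊√(N:ℝ)⌋₊ := by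
        intro n hn
        rw [Finset.mem_filter, Finset.mem_Icc] at hn
        rw [Finset.mem_Icc]
        exact ⟨hn.1.1, Nat.le_floor hn.2⟩
      have h10 := Finset.card_le_card h9
      rw [Nat.card_Icc, Nat.add_sub_cancel] at h10
      calc (((Icc 1 N).filter (fun n : ℕ => (n:ℝ) ≤ √N)).card : ℝ) ≤ (⌊√(N:ℝ)⌋₊ : ℝ) := by exact_mod_cast h10
        _ ≤ _ := Nat.floor_le (Real.sqrt_nonneg _)
    have h11 : ∑ n ∈ Icc 1 N, (if n < n1 then M else 0) ≤ M * n1 := by
      rw [← Finset.sum_filter, Finset.sum_const, nsmul_eq_mul, mul_comm]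
      refine mul_le_mul_of_nonneg_left ?_ hM.le
      have h9 : (Icc 1 N).filter (fun n : ℕ => n < n1) ⊆ range n1 := by
        intro n hn
        rw [Finset.mem_filter] at hn
        exact Finset.mem_range.mpr hn.2
      have h10 := Finset.card_le_card h9
      rw [Finset.card_range] at h10
      exact_mod_cast h10
    linarith
  have h12 := hN2 N hNa
  have h13 : (Real.log (N:ℝ)) ^ K / N * (N * (ε / (4 * 2 ^ K) * 2 ^ K / (Real.log N) ^ K)) = ε / 4 := by
    field_simp
  have h14 : (Real.log (N:ℝ)) ^ K / N * ∑ n ∈ Icc 1 N, u n ≤ (Real.log (N:ℝ)) ^ K / N *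
      ((M * √(N:ℝ) + M * n1) + N * (ε / (4 * 2 ^ K) * 2 ^ K / (Real.log N) ^ K)) :=
    mul_le_mul_of_nonneg_left hsplit (by positivity)
  rw [mul_add, h13] at h14
  linarith

lemma abel (z y : ℕ → ℝ) (N : ℕ) :
    ∑ n ∈ Icc 1 N, z n * y n = (∑ n ∈ Icc 1 N, z n) * y (N + 1) -
      ∑ n ∈ Icc 1 N, (∑ m ∈ Icc 1 n, z m) * (y (n + 1) - y n) := by
  induction N with
  | zero => simp
  | succ N ih =>
    rw [Finset.sum_Icc_succ_top (by omega), Finset.sum_Icc_succ_top (by omega : 1 ≤ N + 1) (fun n => z n),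
      Finset.sum_Icc_succ_top (by omega : 1 ≤ N + 1) (fun n => (∑ m ∈ Icc 1 n, z m) * (y (n + 1) - y n)),
      Finset.sum_Icc_succ_top (by omega : 1 ≤ N + 1) (fun n => z n), ih]
    ring

/-- a slowly varying factor -/
lemma slow (z y : ℕ → ℝ) (C : ℝ) (n0 : ℕ) (hy : ∀ n, n0 ≤ n → |y n| ≤ C) (hy' : ∀ n, n0 ≤ n → |y (n + 1) - y n| ≤ C / n)
    (hz : ∀ K : ℕ, Tendsto (fun N : ℕ => (Real.log (N:ℝ)) ^ K / N * |∑ n ∈ Icc 1 N, z n|) atTop (𝓝 0)) (K : ℕ) :
    Tendsto (fun N : ℕ => (Real.log (N:ℝ)) ^ K / N * |∑ n ∈ Icc 1 N, z n * y n|) atTop (𝓝 0) := by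
  have hC : 0 ≤ C := (abs_nonneg _).trans (hy n0 le_rfl)
  -- the boundary term
  have h1 : Tendsto (fun N : ℕ => (Real.log (N:ℝ)) ^ K / N * |(∑ n ∈ Icc 1 N, z n) * y (N + 1)|) atTop (𝓝 0) := by
    have h2 := (hz K).mul_const C
    rw [zero_mul] at h2
    refine squeeze_zero' ?_ ?_ h2
    · filter_upwards [eventually_ge_atTop 1] with N hN
      have : 0 ≤ Real.log (N:ℝ) := Real.log_nonneg (by exact_mod_cast hN)
      positivity
    · filter_upwards [eventually_ge_atTop 1, eventually_ge_atTop n0] with N hN hN0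
      have : 0 ≤ Real.log (N:ℝ) := Real.log_nonneg (by exact_mod_cast hN)
      rw [abs_mul, ← mul_assoc]
      exact mul_le_mul_of_nonneg_left (hy _ (by omega)) (by positivity)
  -- the sum
  set u : ℕ → ℝ := fun n => |∑ m ∈ Icc 1 n, z m| / n with hu
  have hu0 : ∀ n, 0 ≤ u n := fun n => by positivity
  have h3 : Tendsto (fun n : ℕ => (Real.log (n:ℝ)) ^ K * u n) atTop (𝓝 0) := by
    refine (hz K).congr fun n => ?_
    simp only [hu]
    ring
  have h4 := (cesaro_log K u hu0 h3).const_mul C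
  rw [mul_zero] at h4
  have h5 : Tendsto (fun N : ℕ => (Real.log (N:ℝ)) ^ K / N *
      |∑ n ∈ Icc 1 N, (∑ m ∈ Icc 1 n, z m) * (y (n + 1) - y n)|) atTop (𝓝 0) := by
    set c0 : ℝ := ∑ n ∈ range n0, |(∑ m ∈ Icc 1 n, z m) * (y (n + 1) - y n)| with hc0
    have h6 := h4.add ((logK_div K).mul_const c0)
    rw [zero_mul, add_zero] at h6
    refine squeeze_zero' ?_ ?_ h6
    · filter_upwards [eventually_ge_atTop 1] with N hN
      have : 0 ≤ Real.log (N:ℝ) := Real.log_nonneg (by exact_mod_cast hN)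
      positivity
    · filter_upwards [eventually_ge_atTop 1] with N hN
      have hl : 0 ≤ Real.log (N:ℝ) := Real.log_nonneg (by exact_mod_cast hN)
      have h7 : |∑ n ∈ Icc 1 N, (∑ m ∈ Icc 1 n, z m) * (y (n + 1) - y n)| ≤ C * ∑ n ∈ Icc 1 N, u n + c0 := by
        refine (Finset.abs_sum_le_sum_abs _ _).trans ?_
        have h8 : ∀ n ∈ Icc 1 N, |(∑ m ∈ Icc 1 n, z m) * (y (n + 1) - y n)| ≤ C * u n +
            (if n < n0 then |(∑ m ∈ Icc 1 n, z m) * (y (n + 1) - y n)| else 0) := by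
          intro n hn
          by_cases hlt : n < n0
          · rw [if_pos hlt]
            have := mul_nonneg hC (hu0 n)
            linarith
          · rw [if_neg hlt, add_zero, abs_mul]
            calc |∑ m ∈ Icc 1 n, z m| * |y (n + 1) - y n| ≤ |∑ m ∈ Icc 1 n, z m| * (C / n) :=
                  mul_le_mul_of_nonneg_left (hy' n (by omega)) (abs_nonneg _)
              _ = C * u n := by simp only [hu]; ring
        refine (Finset.sum_le_sum h8).trans ?_
        rw [Finset.sum_add_distrib, ← Finset.mul_sum, ← Finset.sum_filter]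
        have h9 : ∑ n ∈ (Icc 1 N).filter (fun n => n < n0), |(∑ m ∈ Icc 1 n, z m) * (y (n + 1) - y n)| ≤ c0 := by
          rw [hc0]
          refine Finset.sum_le_sum_of_subset_of_nonneg ?_ fun i _ _ => abs_nonneg _
          intro n hn
          rw [Finset.mem_filter] at hn
          exact Finset.mem_range.mpr hn.2
        linarith
      have h10 := mul_le_mul_of_nonneg_left h7 (by positivity : 0 ≤ (Real.log (N:ℝ)) ^ K / N)
      refine h10.trans (le_of_eq ?_)
      ring
  have h11 := h1.add h5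
  rw [add_zero] at h11
  refine squeeze_zero' ?_ ?_ h11
  · filter_upwards [eventually_ge_atTop 1] with N hN
    have : 0 ≤ Real.log (N:ℝ) := Real.log_nonneg (by exact_mod_cast hN)
    positivity
  · filter_upwards [eventually_ge_atTop 1] with N hN
    have hl : 0 ≤ Real.log (N:ℝ) := Real.log_nonneg (by exact_mod_cast hN)
    rw [abel, ← mul_add]
    exact mul_le_mul_of_nonneg_left (abs_sub _ _) (by positivity)

end Pool.Agent.N798.S
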