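import Pool.Agent.N798.S.Core

set_option autoImplicit false
set_option maxHeartbeats 1000000

/-! Project S: one more node. -/

namespace Pool.Agent.N798.S

open Finset MeasureTheory Filter Topology
open scoped ENNReal
open Pool.Agent.H376R2.MR (er)
open Pool.Agent.N798.T

/-- the end of the estimate, for an exceptional interval of length at most `2 L / Cw` -/
lemma fin_bd2 {Cw y0 R l CF D1 V κ T L S Nr δ : ℝ} {K K1 : ℕ} (hCw : 0 < Cw) (hR : 0 ≤ R) (hl : 2 ≤ l)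
    (hNr : 1 ≤ Nr) (hY1 : 1 ≤ Cw * l + y0) (hY2 : Cw / 2 * l ≤ Cw * l + y0) (hlK : l ^ K ≤ Nr)
    (hκ : κ = |CF| / (Cw * l + y0) ^ (K1 + K)) (hL : L = l ^ K1) (hS : S = D1 * Nr ^ 2 / l ^ K)
    (hV : 0 ≤ V) (W : ℝ) (hVT : 2 * V ^ 2 / T ≤ W / Nr) (hW : 0 ≤ W) (hδ : δ ≤ 2 * L / Cw) :
    (δ * κ ^ 2 + 2 * V ^ 2 / T) * Nr ^ 2 + 4 * R * S ≤
      (2 / Cw * CF ^ 2 * (2 / Cw) ^ (K1 + K) + W + 4 * R * D1) * Nr ^ 2 / l ^ K := by
  refine le_trans ?_ (fin_bd (CF := CF) (D1 := D1) (V := V) (T := T) (K := K) (K1 := K1) hCw hR hl hNr hY1 hY2 hlK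
    hκ hL hS hV W hVT hW)
  have h1 : δ * κ ^ 2 ≤ 2 * L / Cw * κ ^ 2 := mul_le_mul_of_nonneg_right hδ (sq_nonneg _)
  have h2 : (δ * κ ^ 2 + 2 * V ^ 2 / T) * Nr ^ 2 ≤ (2 * L / Cw * κ ^ 2 + 2 * V ^ 2 / T) * Nr ^ 2 :=
    mul_le_mul_of_nonneg_right (by linarith) (sq_nonneg _)
  linarith

theorem rs2 (hft : S_FT) (hfd : S_FD) (hpl : S_PL) (a : ℕ → ℕ → ℂ) (e : ℕ → ℕ) (b : ℕ → ℤ) (L : ℕ → ℕ → ℝ)
    (s : ℕ → ℝ) (k A J : ℕ) (w : ℕ → ℕ → ℕ → ℝ) (N0 : ℕ) (d : ℕ → ℝ) (B : ℝ) (hN0 : 2 ≤ N0)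
    (hW : ∀ v, Wt (a v) (e v)) (hd : ∀ v, 0 < d v)
    (hsz : ∀ v, ∃ (B : ℝ) (n0 : ℕ), 1 ≤ n0 ∧ ∀ n : ℕ, n0 ≤ n → |L v n - d v * Real.log n| ≤ B)
    (hwB : ∀ N i v, N0 ≤ N → v < k → |w N i v| ≤ B) (hw0 : ∀ N v, w N 0 v = d v)
    (hA : ∀ v < k, 2 * d v + 1 ≤ A) (j : ℕ) (hj : j < k) (hReg : SReg a b L s k A J w N0 j) :
    SReg a b L s k A J w N0 (j + 1) := by
  intro K
  have hBB : ∀ N i v, N0 ≤ N → v < k → |w N i v| ≤ |B| + 1 := fun N i v h1 h2 =>
    (hwB N i v h1 h2).trans ((le_abs_self B).trans (by linarith))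
  obtain ⟨y0, R, n0, hR, hn0, hwin⟩ := window2 (d j) (hd j) (s j) (L j) (hsz j)
  set Cw := d j with hCw'
  have hCw : 0 < Cw := hd j
  obtain ⟨K1, D1, hD1, hR1⟩ := hReg K
  set AF := ⌈2 * (A:ℝ) / Cw⌉₊ with hAF'
  have hAF : 2 * (A:ℝ) / Cw ≤ (AF : ℝ) := Nat.le_ceil _
  obtain ⟨KF, CF, hF⟩ := hft (a j) (e j) (hW _) (b j) AF (K1 + K) R hR
  set K' := max K1 KF + 1 with hK'
  set X : ℝ := 1 + (|B| + 1) * ((Cw + 1) ^ KF + 2 / Cw) with hX
  obtain ⟨N1, hN12, hev⟩ := evN Cw y0 X K hCw n0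
  set W : ℝ := 2 * (2 * (Real.exp (y0 + R) + 1) + 4) ^ 2 with hWdef
  set D := 2 / Cw * CF ^ 2 * (2 / Cw) ^ (K1 + K) + W + 4 * R * D1 with hD
  have hD0 : 0 ≤ D := by positivity
  refine ⟨K', D + (Real.log N1) ^ K, by positivity, fun N N' θ hN hNN hN' hθ hT => ?_⟩
  have hN2 : 2 ≤ N := hN0.trans hN
  have hNr : (1:ℝ) ≤ N := by exact_mod_cast (by omega : 1 ≤ N)
  have hN0r : (0:ℝ) < N := by linarith
  have hlog : 0 < Real.log N := Real.log_pos (by exact_mod_cast (by omega : 1 < N))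
  rcases lt_or_ge N N1 with hlt | hge
  · refine (triv_lint _ _ 1 zero_le_one N N' hN' (fun ω n => SW_le (fun v n => (hW v).le_one n) ω n θ)).trans ?_
    apply ENNReal.ofReal_le_ofReal
    rw [one_pow, one_mul, le_div_iff₀ (pow_pos hlog K), mul_comm]
    refine mul_le_mul_of_nonneg_right ?_ (sq_nonneg _)
    have : (Real.log N) ^ K ≤ (Real.log N1) ^ K :=
      pow_le_pow_left₀ hlog.le (Real.log_le_log hN0r (by exact_mod_cast hlt.le)) K
    linarith
  obtain ⟨h0, hY1, hY2, hY3, hl2, hlX, hlK⟩ := hev N hge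
  set l := Real.log (N:ℝ) with hl
  set Y := Cw * l + y0 with hY
  have hYpos : 0 < Y := by linarith
  -- the integral over the last coordinate
  have hmeas : Measurable fun ω : Fin (j + 1) → ℝ => ‖∑ n ∈ Ioc N N', SW a b L s k (j + 1) ω n θ‖ₑ ^ 2 :=
    (Finset.measurable_fun_sum _ fun n _ => SW_meas n θ).enorm.pow_const 2
  rw [lint_succ _ hmeas]
  set h : ℝ → ℂ := fun y => a j (vl (b j) (Real.exp y)) * er (θ j) (Real.log (vl (b j) (Real.exp y))) with hh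
  have hhm : Measurable h := by
    have h1 : Measurable fun m : ℕ => a j m * er (θ j) (Real.log (m : ℝ)) := measurable_of_countable _
    exact h1.comp ((vl_meas _).comp Real.measurable_exp)
  have hh1 : ∀ y, ‖h y‖ ≤ 1 := by
    intro y
    simp only [hh]
    rw [norm_mul, er_norm, mul_one]
    exact (hW _).le_one _
  have hEq : ∀ ω : Fin j → ℝ, ∫⁻ u in Set.Icc (0:ℝ) 1,
      ‖∑ n ∈ Ioc N N', SW a b L s k (j + 1) (Fin.snoc ω u : Fin (j + 1) → ℝ) n θ‖ₑ ^ 2 =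
      ∫⁻ u in Set.Icc (0:ℝ) 1,
        ‖∑ n ∈ Ioc N N', SW a b L s k j ω n (Function.update θ j 0) * h (u + (s j + L j n))‖ₑ ^ 2 := by
    intro ω
    refine setLIntegral_congr_fun measurableSet_Icc fun u hu => ?_
    congr 2
    refine Finset.sum_congr rfl fun n hn => ?_
    exact SW_succ hj ω u hu n θ
  rw [lintegral_congr hEq]
  set V := 2 * (Real.exp (Y + R) + 1) + 4 with hV
  have hV0 : 0 ≤ V := by positivity
  have hTp : (1:ℝ) ≤ (N:ℝ) ^ A := one_le_pow₀ hNr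
  have hjm : j ∈ range k := Finset.mem_range.mpr hj
  -- the functionals at the changed frequency
  have hFu : ∀ i η, ∑ v ∈ range k, w N i v * Function.update θ j η v =
      ∑ v ∈ range k, w N i v * θ v + w N i j * (η - θ j) := by
    intro i η
    rw [← Finset.add_sum_erase _ _ hjm, ← Finset.add_sum_erase (range k) (fun v => w N i v * θ v) hjm,
      Function.update_self]
    have : ∑ x ∈ (range k).erase j, w N i x * Function.update θ j η x = ∑ x ∈ (range k).erase j, w N i x * θ x := by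
      refine Finset.sum_congr rfl fun x hx => ?_
      rw [Function.update_of_ne (Finset.ne_of_mem_erase hx)]
    rw [this]
    ring
  set F0 := ∑ v ∈ range k, w N 0 v * θ v with hF0
  -- frequencies with a large functional
  have hbig : ∀ η : ℝ, |η| ≤ (N:ℝ) ^ A → (∃ i ≤ J, l ^ K1 ≤ |∑ v ∈ range k, w N i v * θ v + w N i j * (η - θ j)|) →
      ∫⁻ ω, ‖∑ n ∈ Ioc N N', SW a b L s k j ω n (Function.update θ j η)‖ₑ ^ 2 ∂(mu j) ≤
        ENNReal.ofReal (D1 * (N:ℝ) ^ 2 / l ^ K) := by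
    intro η hη hi
    refine hR1 N N' _ hN hNN hN' (fun v hv => ?_) ?_
    · by_cases hvj : v = j
      · rw [hvj, Function.update_self]; exact hη
      · rw [Function.update_of_ne hvj]; exact hθ v hv
    · obtain ⟨i, hi1, hi2⟩ := hi
      exact ⟨i, hi1, by rw [hFu]; exact hi2⟩
  -- frequencies far from `θ j`
  have hAY : ∀ x : ℝ, x ≤ (N:ℝ) ^ A → x ≤ Real.exp (AF * Y) := by
    intro x hx
    refine hx.trans ?_
    have e1 : (N:ℝ) ^ A = Real.exp ((A : ℝ) * l) := by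
      rw [← Real.rpow_natCast, Real.rpow_def_of_pos hN0r]
      congr 1
      ring
    rw [e1]
    apply Real.exp_le_exp.mpr
    rw [div_le_iff₀ hCw] at hAF
    have h3 : (AF:ℝ) * (Cw / 2 * l) ≤ AF * Y := mul_le_mul_of_nonneg_left hY2 (Nat.cast_nonneg _)
    have h4 : (A:ℝ) * l ≤ (AF:ℝ) * (Cw / 2 * l) := by
      have := mul_le_mul_of_nonneg_right hAF (by linarith : 0 ≤ l / 2)
      nlinarith
    linarith
  have hfar : ∀ η : ℝ, |η| ≤ (N:ℝ) ^ A → Y ^ KF ≤ |θ j - η| →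
      ‖∫ y in Y..(Y + R), h y * er (-η) y‖ ≤ |CF| / Y ^ (K1 + K) := by
    intro η hη hsep
    have h1 := hF Y Y (Y + R) (θ j) η hY1 le_rfl (by linarith) le_rfl (hAY _ (hθ j hj)) (hAY _ hη) hsep
    refine h1.trans ?_
    gcongr
    exact le_abs_self _
  have hVd : ∀ η : ℝ, 0 < |η| → ‖∫ y in Y..(Y + R), h y * er (-η) y‖ ≤ V / |η| := by
    intro η hη
    have h1 := (hfd (a j) (b j) 0 (hW _).le_one Y (Y + R) (θ j) η hY1 (by linarith) hη).1
    refine h1.trans ?_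
    gcongr
    rw [hV]; linarith
  have hA2 : 2 * Cw + 1 ≤ (A:ℝ) := hA j hj
  have hlK1 : 0 < l ^ K1 := by positivity
  have hfinal : ∀ p q : ℝ, p ≤ q → q - p ≤ 2 * l ^ K1 / Cw →
      (∀ η ∈ Set.Icc p q, |η| ≤ (N:ℝ) ^ A → Y ^ KF ≤ |θ j - η|) →
      (∀ η : ℝ, |η| ≤ (N:ℝ) ^ A → η ∉ Set.Icc p q →
        ∃ i ≤ J, l ^ K1 ≤ |∑ v ∈ range k, w N i v * θ v + w N i j * (η - θ j)|) →
      ∫⁻ ω, (∫⁻ u in Set.Icc (0:ℝ) 1,
        ‖∑ n ∈ Ioc N N', SW a b L s k j ω n (Function.update θ j 0) * h (u + (s j + L j n))‖ₑ ^ 2) ∂(mu j) ≤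
        ENNReal.ofReal ((D + (Real.log N1) ^ K) * N ^ 2 / l ^ K) := by
    intro p q hpq hqp hI hO
    have hcore := core2 (a := a) (b := b) (L := L) (s := s) (k := k) (j := j) hpl (fun v n => (hW v).le_one n) hj θ N N' hN'
      h hhm Y R hR (fun y _ => (hh1 y).trans (by norm_num)) (fun n hn u hu => hwin N N' h0 hN' n hn u hu)
      V hV0 hVd ((N:ℝ) ^ A) (|CF| / Y ^ (K1 + K)) (D1 * (N:ℝ) ^ 2 / l ^ K) p q hTp
      (by positivity) (by positivity) hpq (fun η hη hηT => hfar η hηT (hI η hη hηT))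
      (fun η hηT hη => hbig η hηT (hO η hηT hη))
    refine hcore.trans (ENNReal.ofReal_le_ofReal ?_)
    have h1 := fin_bd2 (CF := CF) (D1 := D1) (V := V) (T := (N:ℝ) ^ A) (K := K) (K1 := K1) (δ := q - p)
      hCw hR hl2 hNr hY1 hY2 hlK rfl rfl rfl hV0 W (VT_bd hNr hCw hA2 hV) (by positivity) hqp
    refine h1.trans ?_
    have h2 : 0 ≤ (Real.log N1) ^ K := by
      have : 0 ≤ Real.log N1 := Real.log_nonneg (by exact_mod_cast (by omega : 1 ≤ N1))
      positivity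
    refine div_le_div_of_nonneg_right (mul_le_mul_of_nonneg_right ?_ (sq_nonneg _)) (pow_nonneg hlog.le K)
    linarith [h2, hD]
  -- the interval on which the first functional is small
  set p := θ j - F0 / Cw - l ^ K1 / Cw with hp
  set q := θ j - F0 / Cw + l ^ K1 / Cw with hq
  have hout : ∀ η : ℝ, η ∉ Set.Icc p q → l ^ K1 ≤ |F0 + w N 0 j * (η - θ j)| := by
    intro η hη
    rw [hw0, ← hCw']
    by_contra hlt
    push Not at hlt
    apply hη
    rw [abs_lt] at hlt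
    constructor
    · rw [hp]
      have : θ j - F0 / Cw - l ^ K1 / Cw = θ j + (-(F0 + l ^ K1)) / Cw := by ring
      rw [this]
      have h2 : -(F0 + l ^ K1) / Cw ≤ η - θ j := by
        rw [div_le_iff₀ hCw]; linarith [hlt.1]
      linarith
    · rw [hq]
      have : θ j - F0 / Cw + l ^ K1 / Cw = θ j + (l ^ K1 - F0) / Cw := by ring
      rw [this]
      have h2 : η - θ j ≤ (l ^ K1 - F0) / Cw := by
        rw [le_div_iff₀ hCw]; linarith [hlt.2]
      linarith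
  have hqp : q - p = 2 * l ^ K1 / Cw := by rw [hp, hq]; ring
  by_cases hsep : ∀ η ∈ Set.Icc p q, Y ^ KF ≤ |θ j - η|
  · refine hfinal p q ?_ hqp.le (fun η hη _ => hsep η hη) (fun η _ hη => ⟨0, Nat.zero_le _, hout η hη⟩)
    have : 0 ≤ 2 * l ^ K1 / Cw := by positivity
    linarith
  · push Not at hsep
    obtain ⟨η0, hη0, hη0'⟩ := hsep
    refine hfinal ((N:ℝ) ^ A + 1) ((N:ℝ) ^ A + 1) le_rfl (by rw [sub_self]; positivity) ?_ ?_
    · intro η hη hηT
      exfalso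
      have h1 := hη.1
      have h2 := le_abs_self η
      linarith
    · intro η hηT _
      by_cases hη : η ∈ Set.Icc p q
      · obtain ⟨i, hi, hT'⟩ := hT
        refine ⟨i, hi, ?_⟩
        have h1 : |η - θ j| ≤ Y ^ KF + 2 * l ^ K1 / Cw := by
          have h2 : |η - η0| ≤ q - p := by
            rw [abs_le]
            constructor
            · linarith [hη.1, hη0.2]
            · linarith [hη.2, hη0.1]
          have h3 : |η - θ j| ≤ |η - η0| + |θ j - η0| := by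
            have : η - θ j = (η - η0) - (θ j - η0) := by ring
            rw [this]
            exact abs_sub _ _
          linarith
        have h4 : |w N i j * (η - θ j)| ≤ (|B| + 1) * (Y ^ KF + 2 * l ^ K1 / Cw) := by
          rw [abs_mul]
          exact mul_le_mul (hBB N i j hN hj) h1 (abs_nonneg _) (by positivity)
        have h5 : |∑ v ∈ range k, w N i v * θ v| ≤
            |∑ v ∈ range k, w N i v * θ v + w N i j * (η - θ j)| + |w N i j * (η - θ j)| := by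
          have : ∑ v ∈ range k, w N i v * θ v =
            (∑ v ∈ range k, w N i v * θ v + w N i j * (η - θ j)) - w N i j * (η - θ j) := by ring
          calc |∑ v ∈ range k, w N i v * θ v| = |(∑ v ∈ range k, w N i v * θ v + w N i j * (η - θ j)) - w N i j * (η - θ j)| := by
                rw [← this]
            _ ≤ _ := abs_sub _ _
        have h6 : l ^ K' ≤ |∑ v ∈ range k, w N i v * θ v| := hT'
        have h7 : l ^ K1 ≤ l ^ (max K1 KF) := pow_le_pow_right₀ (by linarith) (le_max_left _ _)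
        have h8 : l ^ KF ≤ l ^ (max K1 KF) := pow_le_pow_right₀ (by linarith) (le_max_right _ _)
        have h9 : Y ^ KF ≤ (Cw + 1) ^ KF * l ^ (max K1 KF) := by
          have := pow_le_pow_left₀ hYpos.le hY3 KF
          rw [mul_pow] at this
          exact this.trans (mul_le_mul_of_nonneg_left h8 (by positivity))
        have h10 : Y ^ KF + 2 * l ^ K1 / Cw ≤ ((Cw + 1) ^ KF + 2 / Cw) * l ^ (max K1 KF) := by
          have : 2 * l ^ K1 / Cw ≤ 2 / Cw * l ^ (max K1 KF) := by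
            rw [div_mul_eq_mul_div]
            exact div_le_div_of_nonneg_right (by linarith) hCw.le
          linarith
        have h11 : (|B| + 1) * (Y ^ KF + 2 * l ^ K1 / Cw) ≤ (|B| + 1) * (((Cw + 1) ^ KF + 2 / Cw) * l ^ (max K1 KF)) :=
          mul_le_mul_of_nonneg_left h10 (by positivity)
        have h12 : X * l ^ (max K1 KF) ≤ l ^ K' := by
          rw [hK', pow_succ, mul_comm]
          exact mul_le_mul_of_nonneg_left hlX (by positivity)
        have h13 : X * l ^ (max K1 KF) = l ^ (max K1 KF) + (|B| + 1) * (((Cw + 1) ^ KF + 2 / Cw) * l ^ (max K1 KF)) := by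
          rw [hX]; ring
        linarith
      · exact ⟨0, Nat.zero_le _, hout η hη⟩

theorem sreg_all (hft : S_FT) (hfd : S_FD) (hpl : S_PL) (a : ℕ → ℕ → ℂ) (e : ℕ → ℕ) (b : ℕ → ℤ) (L : ℕ → ℕ → ℝ)
    (s : ℕ → ℝ) (k A J : ℕ) (w : ℕ → ℕ → ℕ → ℝ) (N0 : ℕ) (d : ℕ → ℝ) (B : ℝ) (hN0 : 2 ≤ N0)
    (hW : ∀ v, Wt (a v) (e v)) (hd : ∀ v, 0 < d v)
    (hsz : ∀ v, ∃ (B : ℝ) (n0 : ℕ), 1 ≤ n0 ∧ ∀ n : ℕ, n0 ≤ n → |L v n - d v * Real.log n| ≤ B)
    (hwB : ∀ N i v, N0 ≤ N → v < k → |w N i v| ≤ B) (hw0 : ∀ N v, w N 0 v = d v)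
    (hA : ∀ v < k, 2 * d v + 1 ≤ A)
    (hs : ∀ K : ℕ, ∃ (K' : ℕ) (C : ℝ), 0 < C ∧ ∀ (N N' : ℕ) (θ : ℕ → ℝ), N0 ≤ N → N ≤ N' → N' ≤ 2 * N →
      (∀ v < k, |θ v| ≤ (N : ℝ) ^ A) → (∃ i ≤ J, (Real.log N) ^ K' ≤ |∑ v ∈ range k, w N i v * θ v|) →
      ‖∑ n ∈ Ioc N N', er 1 (∑ v ∈ range k, θ v * L v n)‖ ≤ C * N / (Real.log N) ^ K)
    (j : ℕ) (hj : j ≤ k) : SReg a b L s k A J w N0 j := by
  induction j with
  | zero => exact sreg_zero A J w N0 hN0 hs
  | succ j ih =>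
    exact rs2 hft hfd hpl a e b L s k A J w N0 d B hN0 hW hd hsz hwB hw0 hA j (by omega) (ih (by omega))

end Pool.Agent.N798.S
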